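import Pool.Agent.H589R3.DT.EX

set_option autoImplicit false

/-!
Bipartite graphs in which all sets of linear size are sparse.
-/

open scoped Classical
open Finset

namespace Pool.Agent.D0H57.DT1

open H589DT H589DT.EXaux

/-- the sum for the sizes `s` at most a small constant times `n` -/
theorem bad_lin {n D h : ℕ} (hh : 1 ≤ h) (hn1 : 1 ≤ n) (s : ℕ) (hs : 1 ≤ s)
    (hsn : (8 * (6 * 2 ^ D)) ^ h * s ≤ n) :
    (∑ S ∈ (univ : Finset (Fin n ⊕ Fin n)).powersetCard s,
      (Ev D n S (s + (s / h + 1))).card) * 8 ^ s ≤ (n ^ D) ^ n := by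
  set C : ℕ := 6 * 2 ^ D with hC
  have hC1 : 1 ≤ C := by
    have : 1 ≤ 2 ^ D := Nat.one_le_two_pow
    omega
  set A := ∑ S ∈ (univ : Finset (Fin n ⊕ Fin n)).powersetCard s,
      (Ev D n S (s + (s / h + 1))).card with hA
  have key := card_Ev' (D := D) hn1 s (s / h + 1)
  rw [← hA, ← hC] at key
  have h2 : (8 * C) ^ s ≤ ((8 * C) ^ h) ^ (s / h + 1) := by
    rw [← pow_mul]
    refine Nat.pow_le_pow_right (by omega) ?_
    exact (Nat.lt_mul_div_succ s (by omega)).le
  have h3 : A * ((8 * C) ^ s * s ^ (s / h + 1)) ≤ C ^ s * s ^ (s / h + 1) * (n ^ D) ^ n := by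
    calc A * ((8 * C) ^ s * s ^ (s / h + 1))
        ≤ A * (((8 * C) ^ h) ^ (s / h + 1) * s ^ (s / h + 1)) :=
          Nat.mul_le_mul_left _ (Nat.mul_le_mul_right _ h2)
      _ = A * ((8 * C) ^ h * s) ^ (s / h + 1) := by rw [mul_pow ((8 * C) ^ h) s]
      _ ≤ A * n ^ (s / h + 1) := Nat.mul_le_mul_left _ (Nat.pow_le_pow_left hsn _)
      _ ≤ _ := key
  have h4 : 0 < C ^ s * s ^ (s / h + 1) := by positivity
  refine Nat.le_of_mul_le_mul_left (c := C ^ s * s ^ (s / h + 1)) ?_ h4
  calc C ^ s * s ^ (s / h + 1) * (A * 8 ^ s) = A * ((8 * C) ^ s * s ^ (s / h + 1)) := by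
        rw [mul_pow 8 C s]; ring
    _ ≤ _ := h3

/-- sparse bipartite graphs with right degree `D` (first moment method) -/
theorem ex_lin (D h g : ℕ) (hh : 1 ≤ h) : ∃ n0 : ℕ, ∀ n : ℕ, n0 ≤ n →
    ∃ (φ : Fin n → Fin D → Fin n) (B : Finset (Fin n)), 2 * B.card ≤ n ∧
      (∀ S : Finset (Fin n ⊕ Fin n), (8 * (6 * 2 ^ D)) ^ h * S.card ≤ n →
        (einφ φ B S).card ≤ S.card + S.card / h) ∧
      ∀ S : Finset (Fin n ⊕ Fin n), S.Nonempty → S.card ≤ g → (einφ φ B S).card < S.card := by
  refine ⟨8 * (g * (g * (6 * 2 ^ D) ^ g)) + 1, fun n hn => ?_⟩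
  have hn2 : 8 * (g * (g * (6 * 2 ^ D) ^ g)) ≤ n := by omega
  have hn1 : 1 ≤ n := by omega
  set K : ℕ := g * (6 * 2 ^ D) ^ g with hK
  have hNpos : 0 < (n ^ D) ^ n := by positivity
  have hq1 : 1 ≤ (8 * (6 * 2 ^ D)) ^ h := Nat.one_le_pow _ _ (by positivity)
  -- the first bad set
  set Bad1 : Finset (Fin n → Fin D → Fin n) := univ.filter fun φ =>
    ∃ S : Finset (Fin n ⊕ Fin n), 1 ≤ S.card ∧ (8 * (6 * 2 ^ D)) ^ h * S.card ≤ n ∧
      S.card + (S.card / h + 1) ≤ (einφ φ ∅ S).card with hBad1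
  have hb1 : 7 * Bad1.card ≤ (n ^ D) ^ n := by
    have hsub : Bad1 ⊆ ((Finset.Icc 1 n).filter fun s => (8 * (6 * 2 ^ D)) ^ h * s ≤ n).biUnion
        fun s => ((univ : Finset (Fin n ⊕ Fin n)).powersetCard s).biUnion fun S =>
          Ev D n S (s + (s / h + 1)) := by
      intro φ hφ
      simp only [hBad1, mem_filter, mem_univ, true_and] at hφ
      obtain ⟨S, h1, h2, h3⟩ := hφ
      rw [mem_biUnion]
      refine ⟨S.card, ?_, ?_⟩
      · rw [mem_filter, Finset.mem_Icc]
        refine ⟨⟨h1, ?_⟩, h2⟩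
        calc S.card ≤ (8 * (6 * 2 ^ D)) ^ h * S.card := Nat.le_mul_of_pos_left _ hq1
          _ ≤ n := h2
      · rw [mem_biUnion]
        refine ⟨S, mem_powersetCard.2 ⟨subset_univ _, rfl⟩, ?_⟩
        simp only [Ev, mem_filter, mem_univ, true_and]
        exact h3
    calc 7 * Bad1.card ≤ 7 * ∑ s ∈ (Finset.Icc 1 n).filter
            (fun s => (8 * (6 * 2 ^ D)) ^ h * s ≤ n),
          ∑ S ∈ (univ : Finset (Fin n ⊕ Fin n)).powersetCard s,
            (Ev D n S (s + (s / h + 1))).card := by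
          refine Nat.mul_le_mul_left _ ((Finset.card_le_card hsub).trans
            (Finset.card_biUnion_le.trans ?_))
          exact Finset.sum_le_sum fun s _ => Finset.card_biUnion_le
      _ ≤ (n ^ D) ^ n := by
          refine geo _ n _ _ (Finset.filter_subset _ _) fun s hs => ?_
          rw [mem_filter, Finset.mem_Icc] at hs
          exact bad_lin hh hn1 s hs.1.1 hs.2
  -- the second bad set
  set Bad2 : Finset (Fin n → Fin D → Fin n) :=
    univ.filter fun φ => 4 * K + 1 ≤ EXaux.X g φ with hBad2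
  have hb2 : 4 * Bad2.card ≤ (n ^ D) ^ n := by
    have h1 : Bad2.card * (4 * K + 1) ≤ K * (n ^ D) ^ n := by
      calc Bad2.card * (4 * K + 1) = ∑ φ ∈ Bad2, (4 * K + 1) := by
            rw [Finset.sum_const, smul_eq_mul]
        _ ≤ ∑ φ ∈ Bad2, EXaux.X g φ := by
            refine Finset.sum_le_sum fun φ hφ => ?_
            simp only [hBad2, mem_filter, mem_univ, true_and] at hφ
            exact hφ
        _ ≤ ∑ φ : Fin n → Fin D → Fin n, EXaux.X g φ :=
            Finset.sum_le_sum_of_subset (subset_univ _)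
        _ ≤ K * (n ^ D) ^ n := sum_X hn1
    rcases Nat.eq_zero_or_pos K with h0 | h0
    · rw [h0] at h1
      simp only [mul_zero, zero_add, mul_one, zero_mul, Nat.le_zero] at h1
      rw [h1]
      omega
    · refine Nat.le_of_mul_le_mul_left (c := K) ?_ h0
      calc K * (4 * Bad2.card) = Bad2.card * (4 * K) := by ring
        _ ≤ Bad2.card * (4 * K + 1) := Nat.mul_le_mul_left _ (by omega)
        _ ≤ _ := h1
  obtain ⟨φ, hφ1, hφ2⟩ : ∃ φ, φ ∉ Bad1 ∧ φ ∉ Bad2 := by
    by_contra hcon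
    push Not at hcon
    have h1 : (univ : Finset (Fin n → Fin D → Fin n)) ⊆ Bad1 ∪ Bad2 := by
      intro φ _
      rw [mem_union]
      by_cases h' : φ ∈ Bad1
      · exact Or.inl h'
      · exact Or.inr (hcon φ h')
    have h2 := (Finset.card_le_card h1).trans (Finset.card_union_le _ _)
    rw [Finset.card_univ, Fintype.card_fun, Fintype.card_fun, Fintype.card_fin,
      Fintype.card_fin] at h2
    omega
  have hX : EXaux.X g φ ≤ 4 * K := by
    simp only [hBad2, mem_filter, mem_univ, true_and] at hφ2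
    omega
  refine ⟨φ, BB g φ, ?_, ?_, ?_⟩
  · have h1 := card_BB (g := g) φ
    calc 2 * (BB g φ).card ≤ 2 * (g * (4 * K)) :=
          Nat.mul_le_mul_left _ (h1.trans (Nat.mul_le_mul_left _ hX))
      _ = 8 * (g * K) := by ring
      _ ≤ n := hn2
  · intro S hS
    have hle : (einφ φ (BB g φ) S).card ≤ (einφ φ ∅ S).card := by
      refine Finset.card_le_card fun e he => ?_
      simp only [einφ, mem_filter, mem_univ, true_and] at he ⊢
      exact ⟨by simp, he.2⟩
    rcases Nat.eq_zero_or_pos S.card with h0 | h0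
    · rw [Finset.card_eq_zero] at h0
      subst h0
      simp [einφ]
    · refine hle.trans ?_
      by_contra hcon
      push Not at hcon
      apply hφ1
      simp only [hBad1, mem_filter, mem_univ, true_and]
      exact ⟨S, h0, hS, by omega⟩
  · intro S hS hSg
    by_contra hcon
    push Not at hcon
    have hSpos : 0 < S.card := Finset.card_pos.2 hS
    set S' : Finset (Fin n ⊕ Fin n) := S.filter fun u => ∀ w, u = Sum.inr w → w ∉ BB g φ
      with hS'
    have h1 : einφ φ (BB g φ) S ⊆ einφ φ ∅ S' := by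
      intro e he
      simp only [einφ, mem_filter, mem_univ, true_and, hS'] at he ⊢
      refine ⟨by simp, ⟨he.2.1, ?_⟩, he.2.2, ?_⟩
      · intro w hw
        rw [← Sum.inr_injective hw]
        exact he.1
      · intro w hw
        exact absurd hw (by simp)
    have h2 : S'.card ≤ (einφ φ ∅ S').card :=
      (Finset.card_le_card (Finset.filter_subset _ _)).trans (hcon.trans (Finset.card_le_card h1))
    have h3 : (einφ φ (BB g φ) S).Nonempty := Finset.card_pos.1 (lt_of_lt_of_le hSpos hcon)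
    obtain ⟨e, he⟩ := h3
    have he' := h1 he
    simp only [einφ, mem_filter, mem_univ, true_and] at he he'
    apply he.1
    simp only [BB, mem_filter, mem_univ, true_and]
    exact ⟨S', he'.2.1, (Finset.card_le_card (Finset.filter_subset _ _)).trans hSg, h2⟩

end Pool.Agent.D0H57.DT1
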