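import Pool.Agent.D0H57.DT1.Res
import Pool.Agent.D0H57.DT1.Ex
import Pool.Agent.H589R3.DT.Main

set_option autoImplicit false

/-!
The propositional formula of a d-to-1 game, and games whose formulas have no narrow refutations.
-/

open scoped Classical
open Finset

namespace Pool.Agent.D0H57.DT1

open H589DT

/-- The propositional formula (set of clauses) which says that the game `I` has value one, that is,
that some labelling satisfies all constraints. The variable `inl (v, a)` says that the label of the
left vertex `v` is `a` and `inr (w, b)` that the label of the right vertex `w` is `b`. The clauses: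
every vertex has a label; no vertex has two labels; and for every edge `v w`, no `a`, `b` with
`map v w b ≠ a` are the labels of `v` and `w`. -/
def gameCnf {V W : Type} {d R : ℕ} (I : DGame V W d R) :
    Set (Finset (((V × Fin R) ⊕ (W × Fin (d * R))) × Bool)) :=
  {C | (∃ v, C = univ.image fun a => (Sum.inl (v, a), true)) ∨
    (∃ w, C = univ.image fun b => (Sum.inr (w, b), true)) ∨
    (∃ v a a', a ≠ a' ∧ C = {(Sum.inl (v, a), false), (Sum.inl (v, a'), false)}) ∨
    (∃ w b b', b ≠ b' ∧ C = {(Sum.inr (w, b), false), (Sum.inr (w, b'), false)}) ∨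
    ∃ v w a b, I.adj v w ∧ I.map v w b ≠ a ∧
      C = {(Sum.inl (v, a), false), (Sum.inr (w, b), false)}}

/-- locally consistent labellings and narrow proofs -/
theorem no_narrow {X U Λ : Type} {l : ℕ} (F : Local U Λ l) (Φ : Set (Finset (X × Bool)))
    (vtx : X → U) (tv : Λ → X → Prop)
    (hax : ∀ C ∈ Φ, ∀ S ρ, F.C S ρ → (∀ a ∈ C, vtx a.1 ∈ S) →
      ∃ a ∈ C, (tv (ρ (vtx a.1)) a.1 ↔ a.2 = true)) {k : ℕ} (hk : k + 1 ≤ l)
    {C : Finset (X × Bool)} (hC : Narrow Φ k C) :
    ∀ S ρ, F.C S ρ → (∀ a ∈ C, vtx a.1 ∈ S) →
      ∃ a ∈ C, (tv (ρ (vtx a.1)) a.1 ↔ a.2 = true) := by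
  induction hC with
  | ax C h1 _ => exact hax C h1
  | step C D E _ _ h3 h4 ihC ihD =>
    obtain ⟨x, hx1, hx2⟩ := h3
    intro S ρ hS hE
    by_contra hcon
    push Not at hcon
    obtain ⟨S', hS'⟩ : ∃ S', S' = E.image fun a => vtx a.1 := ⟨_, rfl⟩
    have hS'S : S' ⊆ S := by
      intro u hu
      rw [hS', mem_image] at hu
      obtain ⟨a, ha, rfl⟩ := hu
      exact hE a ha
    have hcard : S'.card ≤ k := by
      rw [hS']
      exact card_image_le.trans h4
    obtain ⟨ρ', hρ1, hρ2⟩ := F.ext S' (insert (vtx x) S') ρ (subset_insert _ _)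
      ((card_insert_le _ _).trans (by omega)) (F.mono S' S ρ hS'S hS)
    have hEv : ∀ a ∈ E, vtx a.1 ∈ S' := fun a ha => by
      rw [hS']; exact mem_image_of_mem (fun a : X × Bool => vtx a.1) ha
    by_cases htv : tv (ρ' (vtx x)) x
    · obtain ⟨a, ha, hat⟩ := ihD (insert (vtx x) S') ρ' hρ2 (by
        intro a ha
        have := hx2 ha
        rw [Set.mem_insert_iff] at this
        rcases this with h | h
        · rw [h]; exact mem_insert_self _ _
        · exact mem_insert_of_mem (hEv a h))
      have := hx2 ha
      rw [Set.mem_insert_iff] at this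
      rcases this with h | h
      · rw [h] at hat
        exact absurd (hat.1 htv) (by simp)
      · rw [hρ1 _ (hEv a h)] at hat
        exact (not_and_or.2 (by
          by_contra hc
          push Not at hc
          rcases hcon a h with ⟨h5, h6⟩ | ⟨h5, h6⟩
          · exact h6 (hat.1 h5)
          · exact h5 (hat.2 h6)) : ¬ (True ∧ True)) ⟨trivial, trivial⟩
    · obtain ⟨a, ha, hat⟩ := ihC (insert (vtx x) S') ρ' hρ2 (by
        intro a ha
        have := hx1 ha
        rw [Set.mem_insert_iff] at this
        rcases this with h | h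
        · rw [h]; exact mem_insert_self _ _
        · exact mem_insert_of_mem (hEv a h))
      have := hx1 ha
      rw [Set.mem_insert_iff] at this
      rcases this with h | h
      · rw [h] at hat
        exact htv (hat.2 rfl)
      · rw [hρ1 _ (hEv a h)] at hat
        exact (not_and_or.2 (by
          by_contra hc
          push Not at hc
          rcases hcon a h with ⟨h5, h6⟩ | ⟨h5, h6⟩
          · exact h6 (hat.1 h5)
          · exact h5 (hat.2 h6)) : ¬ (True ∧ True)) ⟨trivial, trivial⟩

end Pool.Agent.D0H57.DT1
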