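import Pool.Agent.D0H57.DT1.Hard

set_option autoImplicit false

/-!
The lower bound for resolution.
-/

open scoped Classical
open Finset

namespace Pool.Agent.D0H57.DT1

open H589DT

/-- from the width bound to the size bound -/
theorem size_of_width {X : Type} [Fintype X] (F : Set (Finset (X × Bool))) (T : ℕ) (hT : 1 ≤ T)
    (hTX : T ≤ 2 * Fintype.card X) (hF : ∀ C ∈ F, C.card ≤ T) (hN : ¬ Narrow F (T + T) ∅)
    (L : List (Finset (X × Bool))) (hL : Refutes F L) :
    Real.exp ((T : ℝ) ^ 2 / (2 * Fintype.card X)) ≤ L.length := by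
  have h1 : (2 * Fintype.card X) ^ T ≤ L.length * (2 * Fintype.card X - T) ^ T := by
    by_contra hcon
    push Not at hcon
    exact hN (size_width T T hTX F hF L hL hcon)
  obtain ⟨M, hM⟩ : ∃ M : ℝ, M = 2 * Fintype.card X := ⟨_, rfl⟩
  have hMT : (T : ℝ) ≤ M := by
    rw [hM]
    exact_mod_cast hTX
  have hT0 : (1 : ℝ) ≤ T := by exact_mod_cast hT
  have hM0 : 0 < M := by linarith
  have h2 : M ^ T ≤ L.length * (M - T) ^ T := by
    have h3 : (((2 * Fintype.card X) ^ T : ℕ) : ℝ) ≤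
        ((L.length * (2 * Fintype.card X - T) ^ T : ℕ) : ℝ) := by exact_mod_cast h1
    rw [Nat.cast_mul, Nat.cast_pow, Nat.cast_pow, Nat.cast_sub hTX] at h3
    push_cast at h3
    rw [hM]
    exact h3
  have h4 : M - T ≤ M * Real.exp (-(T / M)) := by
    have h5 := Real.add_one_le_exp (-(T / M : ℝ))
    have h6 : M - T = M * (-(T / M) + 1) := by field_simp; ring
    rw [h6]
    exact mul_le_mul_of_nonneg_left h5 hM0.le
  have h7 : (M - T) ^ T ≤ M ^ T * Real.exp (-((T : ℝ) ^ 2 / M)) := by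
    calc (M - T) ^ T ≤ (M * Real.exp (-(T / M))) ^ T := pow_le_pow_left₀ (by linarith) h4 T
      _ = M ^ T * Real.exp (-((T : ℝ) ^ 2 / M)) := by
        rw [mul_pow, ← Real.exp_nat_mul]
        congr 2
        ring
  have h8 : M ^ T ≤ L.length * (M ^ T * Real.exp (-((T : ℝ) ^ 2 / M))) :=
    h2.trans (mul_le_mul_of_nonneg_left h7 (Nat.cast_nonneg _))
  have hMT0 : 0 < M ^ T := by positivity
  have h9 : 1 ≤ L.length * Real.exp (-((T : ℝ) ^ 2 / M)) := by
    have : M ^ T * 1 ≤ M ^ T * (L.length * Real.exp (-((T : ℝ) ^ 2 / M))) := by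
      rw [mul_one]
      calc M ^ T ≤ L.length * (M ^ T * Real.exp (-((T : ℝ) ^ 2 / M))) := h8
        _ = _ := by ring
    exact le_of_mul_le_mul_left this hMT0
  rw [← hM]
  calc Real.exp ((T : ℝ) ^ 2 / M) = Real.exp ((T : ℝ) ^ 2 / M) * 1 := by rw [mul_one]
    _ ≤ Real.exp ((T : ℝ) ^ 2 / M) * (L.length * Real.exp (-((T : ℝ) ^ 2 / M))) :=
        mul_le_mul_of_nonneg_left h9 (Real.exp_pos _).le
    _ = L.length * (Real.exp ((T : ℝ) ^ 2 / M) * Real.exp (-((T : ℝ) ^ 2 / M))) := by ring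
    _ = L.length := by rw [← Real.exp_add, add_neg_cancel, Real.exp_zero, mul_one]

/-- the lower bound -/
theorem res_low (d : ℕ) (hd : 2 ≤ d) (ε : ℝ) (hε : 0 < ε) :
    ∃ (R Δ : ℕ) (γ : ℝ) (N0 : ℕ), 1 ≤ R ∧ 0 < γ ∧ ∀ N : ℕ, N0 ≤ N →
      ∃ I : DGame (Fin N) (Fin N) d R, DNo ε I ∧
        (∀ w, (univ.filter fun v => I.adj v w).card ≤ Δ) ∧
        (∀ S T : Finset (Fin N), ((S.card + T.card : ℕ) : ℝ) ≤ γ * N →
          ∃ (A : Fin N → Fin R) (M : Fin N → Fin (d * R)), ∀ v ∈ S, ∀ w ∈ T, I.adj v w →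
            I.map v w (M w) = A v) ∧
        ∀ L : List (Finset (((Fin N × Fin R) ⊕ (Fin N × Fin (d * R))) × Bool)),
          Refutes (gameCnf I) L →
          (∃ C ∈ L, γ * N ≤ C.card) ∧ (2 : ℝ) ^ (γ * N) ≤ L.length := by
  obtain ⟨p, D, q, n0, hpz, hq, hgames⟩ := hard_games d hd ε hε
  have hp : 1 ≤ p := Nat.one_le_iff_ne_zero.2 hpz.out
  have : NeZero d := ⟨by omega⟩
  have hqr : (1 : ℝ) ≤ q := by exact_mod_cast hq
  have hpr : (1 : ℝ) ≤ p := by exact_mod_cast hp
  refine ⟨p, D, 1 / (32 * q ^ 2 * p * (d + 1)), n0 + 4 * q * (d * p + 3) + 8 * q, hp,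
    by positivity, ?_⟩
  intro N hN
  obtain ⟨φ, B, s, hφ, hno, hloc⟩ := hgames N (by omega)
  have hN1 : 1 ≤ N := by omega
  have hNr : (0 : ℝ) < N := by exact_mod_cast hN1
  obtain ⟨γ, hγ⟩ : ∃ γ : ℝ, γ = 1 / (32 * q ^ 2 * p * (d + 1)) := ⟨_, rfl⟩
  rw [← hγ]
  have hγ0 : 0 < γ := by rw [hγ]; positivity
  -- the level
  obtain ⟨l, hl⟩ : ∃ l, l = N / q := ⟨_, rfl⟩
  have hlN : q * l ≤ N := by rw [hl]; exact Nat.mul_div_le _ _
  have hlN2 : N < q * (l + 1) := by rw [hl]; exact Nat.lt_mul_div_succ N (by omega)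
  obtain ⟨F, hF⟩ := hloc l hlN
  -- lower bounds for the level
  have hl1 : d * p + 3 ≤ (l - 1) / 2 := by
    have h1 : 4 * (d * p + 3) + 8 ≤ l + 1 := by
      by_contra hcon
      push Not at hcon
      have h2 : q * (l + 1) ≤ q * (4 * (d * p + 3) + 8) := Nat.mul_le_mul_left _ hcon.le
      have h3 : q * (4 * (d * p + 3) + 8) = 4 * q * (d * p + 3) + 8 * q := by ring
      omega
    omega
  obtain ⟨T, hT⟩ : ∃ T, T = (l - 1) / 2 := ⟨_, rfl⟩
  rw [← hT] at hl1
  have hT4 : N ≤ 4 * q * T := by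
    have h1 : l + 1 ≤ 4 * T := by omega
    calc N ≤ q * (l + 1) := hlN2.le
      _ ≤ q * (4 * T) := Nat.mul_le_mul_left _ h1
      _ = 4 * q * T := by ring
  have hTl : T + T + 1 ≤ l := by omega
  have hlN' : l ≤ N := (Nat.le_mul_of_pos_left l (by omega)).trans hlN
  have hT4r : (N : ℝ) ≤ 4 * q * T := by exact_mod_cast hT4
  have hdr : (0 : ℝ) ≤ d := Nat.cast_nonneg _
  have hγN : γ * N ≤ T := by
    have h1 : γ * (4 * q) ≤ 1 := by
      rw [hγ, div_mul_eq_mul_div, one_mul, div_le_one (by positivity)]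
      have h2 : (q : ℝ) ≤ q ^ 2 := by nlinarith
      have h3 : (1 : ℝ) ≤ p * (d + 1) := by nlinarith
      nlinarith
    calc γ * N ≤ γ * (4 * q * T) := mul_le_mul_of_nonneg_left hT4r hγ0.le
      _ = γ * (4 * q) * T := by ring
      _ ≤ 1 * T := mul_le_mul_of_nonneg_right h1 (Nat.cast_nonneg _)
      _ = T := one_mul _
  have hcardX : Fintype.card ((Fin N × Fin p) ⊕ (Fin N × Fin (d * p))) = N * (p * (d + 1)) := by
    rw [Fintype.card_sum, Fintype.card_prod, Fintype.card_prod, Fintype.card_fin, Fintype.card_fin,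
      Fintype.card_fin]
    ring
  have hwide : ∀ C ∈ gameCnf (gm d φ B s), C.card ≤ T :=
    gameCnf_width _ T (by nlinarith) (by omega) (by omega)
  have hnar : ¬ Narrow (gameCnf (gm d φ B s)) (T + T) ∅ := gm_narrow hφ s F hF hTl
  refine ⟨gm d φ B s, hno, ?_, ?_, ?_⟩
  · intro w
    have h1 : (univ.filter fun v => (gm d φ B s).adj v w) ⊆ univ.image fun i : Fin D => φ w i := by
      intro v hv
      rw [mem_filter] at hv
      obtain ⟨_, i, _, hi⟩ := hv
      rw [mem_image]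
      exact ⟨i, mem_univ _, hi⟩
    refine (card_le_card h1).trans (card_image_le.trans ?_)
    rw [card_univ, Fintype.card_fin]
  · intro S T' hST
    obtain ⟨ρ0, hρ0⟩ := F.empty
    have hcard : (S.image Sum.inl ∪ T'.image Sum.inr : Finset (Fin N ⊕ Fin N)).card ≤ l := by
      refine (card_union_le _ _).trans ?_
      have h1 : ((S.card + T'.card : ℕ) : ℝ) ≤ (T : ℝ) := hST.trans hγN
      have h2 : S.card + T'.card ≤ T := by exact_mod_cast h1
      have h3 : (S.image Sum.inl : Finset (Fin N ⊕ Fin N)).card ≤ S.card := card_image_le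
      have h4 : (T'.image Sum.inr : Finset (Fin N ⊕ Fin N)).card ≤ T'.card := card_image_le
      omega
    obtain ⟨ρ, _, hρ⟩ := F.ext ∅ _ ρ0 (empty_subset _) hcard hρ0
    refine ⟨fun v => eV p (ρ (Sum.inl v)).1, fun w => eW p d (ρ (Sum.inr w)), ?_⟩
    intro v hv w hw hadj
    refine gm_satE hφ s (hF _ _ hρ) v w ?_ ?_ hadj
    · rw [mem_union, mem_image]
      exact Or.inl ⟨v, hv, rfl⟩
    · rw [mem_union, mem_image, mem_image]
      exact Or.inr ⟨w, hw, rfl⟩
  · intro L hL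
    constructor
    · by_contra hcon
      push Not at hcon
      refine hnar ((hL.1.narrow (k := T) ?_ ∅ hL.2).mono (by omega))
      intro C hC
      have h1 : (C.card : ℝ) ≤ T := (hcon C hC).le.trans hγN
      exact_mod_cast h1
    · have h1 := size_of_width (gameCnf (gm d φ B s)) T (by omega) (by
        rw [hcardX]
        have h2 : N ≤ N * (p * (d + 1)) := Nat.le_mul_of_pos_right N (Nat.mul_pos hp (by omega))
        omega) hwide hnar L hL
      refine le_trans ?_ h1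
      rw [hcardX]
      push_cast
      have h2 : γ * N ≤ (T : ℝ) ^ 2 / (2 * (N * (p * (d + 1)))) := by
        rw [le_div_iff₀ (by positivity)]
        have h3 : γ * N * (2 * (N * (p * (d + 1)))) = N ^ 2 / (16 * q ^ 2) := by
          rw [hγ]
          field_simp
          ring
        rw [h3, div_le_iff₀ (by positivity)]
        calc (N : ℝ) ^ 2 ≤ (4 * q * T) ^ 2 := pow_le_pow_left₀ hNr.le hT4r 2
          _ = (T : ℝ) ^ 2 * (16 * q ^ 2) := by ring
      refine le_trans ?_ (Real.exp_le_exp.2 h2)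
      have h4 : (2 : ℝ) ^ (γ * N) = Real.exp (Real.log 2 * (γ * N)) :=
        Real.rpow_def_of_pos (by norm_num) _
      rw [h4]
      apply Real.exp_le_exp.2
      have h5 : Real.log 2 ≤ 1 := by
        have := Real.log_two_lt_d9
        linarith
      have h6 : 0 ≤ γ * N := by positivity
      nlinarith

end Pool.Agent.D0H57.DT1
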