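import Pool.Agent.Y601.SSE.Ac0
import Pool.Agent.TH163.AC2.Stars

set_option autoImplicit false
set_option linter.unusedSectionVars false

/-!
Randomised reductions of small depth from parity to projection games with a gap.
-/

namespace Pool.Agent.D0H57.DT1

open Finset DomAC0 H568R2 Pool.Agent.TH163.AC3 Pool.Agent.Y601.SSE
open Pool.Agent.TH163.AC2 (unif unif_eq unif_restr unif_mono unif_smul unif_sum unif_const
  unif_nonneg)

open scoped Classical

section restr

variable {I : Type} [Fintype I] [DecidableEq I]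

/-- a star and the values of the bits are independent -/
theorem ex_star_unif (p : ℝ) (F : (I → Bool) → ℝ) (i : I) :
    Ex (wq p) (fun ρ : Restr I => (if ρ i = none then (1 : ℝ) else 0) *
      unif (fun x => F (ov ρ x))) = p * unif F := by
  simp only [unif_eq]
  have h := Ex_prod (I := I) (wq p) (fun _ : Bool => (1 / 2 : ℝ))
    (fun ω => (if (ω i).1 = none then (1 : ℝ) else 0) * F (fun i => (ω i).1.getD (ω i).2))
  have h2 := Ex_push (I := I)
    (fun c : Option Bool × Bool => (c.1.getD c.2, decide (c.1 = none)))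
    (fun c => wq p c.1 * (1 / 2 : ℝ))
    (fun b : Bool × Bool => (1 / 2 : ℝ) * (if b.2 = true then p else 1 - p)) (by
      intro b
      rw [Finset.sum_filter, Fintype.sum_prod_type]
      simp only [Fintype.sum_option, Fintype.sum_bool]
      rcases b with ⟨_ | _, _ | _⟩ <;> simp [wq] <;> ring)
    (fun X => (if (X i).2 = true then (1 : ℝ) else 0) * F (fun j => (X j).1))
  have h3 := Ex_prod (I := I) (fun _ : Bool => (1 / 2 : ℝ))
    (fun b : Bool => if b = true then p else 1 - p)
    (fun X => (if (X i).2 = true then (1 : ℝ) else 0) * F (fun j => (X j).1))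
  have hsum : ∑ b : Bool, (if b = true then p else 1 - p) = 1 := by
    rw [Fintype.sum_bool]; simp
  have h4 : Ex (fun b : Bool => if b = true then p else 1 - p)
      (fun β : I → Bool => if β i = true then (1 : ℝ) else 0) = p := by
    rw [Ex_resample hsum _ i]
    have h1 : (fun ω : I → Bool => ∑ a : Bool, (if a = true then p else 1 - p) *
        (if Function.update ω i a i = true then (1 : ℝ) else 0)) = fun _ => p := by
      funext ω
      rw [Fintype.sum_bool]
      simp
    rw [h1, Ex_const hsum]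
  have e1 : Ex (wq p) (fun ρ : Restr I => (if ρ i = none then (1 : ℝ) else 0) *
      Ex (fun _ : Bool => (1 / 2 : ℝ)) (fun x => F (ov ρ x))) =
      Ex (fun c : Option Bool × Bool => wq p c.1 * (1 / 2 : ℝ))
        (fun ω => (if (ω i).1 = none then (1 : ℝ) else 0) *
          F (fun i => (ω i).1.getD (ω i).2)) := by
    rw [h]
    congr 1
    funext ρ
    rw [← Ex_smul]
    rfl
  rw [e1]
  have e2 : (fun ω : I → Option Bool × Bool => (if (ω i).1 = none then (1 : ℝ) else 0) *
          F (fun i => (ω i).1.getD (ω i).2)) = fun ω =>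
      (if (decide ((ω i).1 = none)) = true then (1 : ℝ) else 0) *
        F (fun j => (ω j).1.getD (ω j).2) := by
    funext ω
    simp
  rw [e2]
  refine h2.trans (h3.trans ?_)
  have e3 : (fun α : I → Bool => Ex (fun b : Bool => if b = true then p else 1 - p)
      (fun β : I → Bool => (if β i = true then (1 : ℝ) else 0) * F (fun j => α j))) =
      fun α => p * F α := by
    funext α
    have e4 : (fun β : I → Bool => (if β i = true then (1 : ℝ) else 0) * F (fun j => α j)) =
        fun β => F α * (if β i = true then (1 : ℝ) else 0) := by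
      funext β
      ring
    rw [e4, Ex_smul, h4, mul_comm]
  refine (congrArg (Ex fun _ : Bool => (1 / 2 : ℝ)) e3).trans ?_
  rw [Ex_smul]

/-- a restriction with many stars under which all gates are shallow and few inputs are bad -/
theorem exists_restr' (C : Circuit I) {s : ℕ} (hs : 1 ≤ s) (h : ℕ)
    (hcond : 2 * h * C.size * (24 * s) ^ h ≤ 2 ^ s) (hI : 0 < Fintype.card I)
    (bad : (I → Bool) → ℝ) (hb0 : ∀ x, 0 ≤ bad x)
    (hbad : unif bad ≤ 1 / 3) :
    ∃ ρ : Restr I, Shallow C s h ρ ∧
      (Fintype.card I : ℝ) ≤ 16 * (24 * s) ^ h * ((univ.filter fun i => ρ i = none).card *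
        (1 - 2 * unif (fun x => bad (ov ρ x)))) := by
  obtain ⟨q, hq⟩ : ∃ q : ℝ, q = 1 / (24 * s) := ⟨_, rfl⟩
  have hs0 : (1 : ℝ) ≤ s := by exact_mod_cast hs
  have hq0 : 0 < q := by rw [hq]; positivity
  have hq1 : q ≤ 1 / 3 := by
    rw [hq, div_le_div_iff₀ (by positivity) (by norm_num)]
    linarith
  have hcol := collapse' C hq0.le hq1 hs h
  have hN : (0 : ℝ) < Fintype.card I := by exact_mod_cast hI
  have h1 : (12 * s * q : ℝ) = 1 / 2 := by rw [hq]; field_simp; norm_num
  rw [h1] at hcol
  have hqh : 0 < q ^ h := by positivity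
  have h4 : q ^ h * (24 * s) ^ h = 1 := by
    rw [← mul_pow, hq]
    have : (1 : ℝ) / (24 * s) * (24 * s) = 1 := by field_simp
    rw [this, one_pow]
  have h2 : (h : ℝ) * C.size * (1 / 2) ^ (s + 1) ≤ q ^ h / 4 := by
    have h3 : ((2 * h * C.size * (24 * s) ^ h : ℕ) : ℝ) ≤ ((2 ^ s : ℕ) : ℝ) := by
      exact_mod_cast hcond
    push_cast at h3
    have h5 : ((1 : ℝ) / 2) ^ (s + 1) * 2 ^ s = 1 / 2 := by
      rw [pow_succ, mul_right_comm, ← mul_pow]
      norm_num
    have h6 : (0 : ℝ) < (24 * s) ^ h := by positivity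
    have h7 : (h : ℝ) * C.size * (1 / 2) ^ (s + 1) * (24 * s) ^ h ≤ 1 / 4 := by
      calc (h : ℝ) * C.size * (1 / 2) ^ (s + 1) * (24 * s) ^ h
          = (1 / 2) ^ (s + 1) * (2 * h * C.size * (24 * s) ^ h) / 2 := by ring
        _ ≤ (1 / 2) ^ (s + 1) * 2 ^ s / 2 := by
          have := mul_le_mul_of_nonneg_left h3 (show (0 : ℝ) ≤ (1 / 2) ^ (s + 1) by positivity)
          linarith
        _ = 1 / 4 := by rw [h5]; norm_num
    calc (h : ℝ) * C.size * (1 / 2) ^ (s + 1)
        = (h : ℝ) * C.size * (1 / 2) ^ (s + 1) * (24 * s) ^ h * q ^ h := by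
          rw [mul_assoc _ ((24 * s : ℝ) ^ h), mul_comm ((24 * s : ℝ) ^ h), h4, mul_one]
      _ ≤ 1 / 4 * q ^ h := mul_le_mul_of_nonneg_right h7 hqh.le
      _ = q ^ h / 4 := by ring
  have hcol2 := hcol.trans h2
  -- the expectations
  have hstars : Ex (wq (q ^ h)) (fun ρ : Restr I =>
      ((univ.filter fun i => ρ i = none).card : ℝ)) = Fintype.card I * q ^ h := by
    have e1 : (fun ρ : Restr I => ((univ.filter fun i => ρ i = none).card : ℝ)) =
        fun ρ : Restr I => ∑ i, if ρ i = none then (1 : ℝ) else 0 := by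
      funext ρ
      rw [card_filter]
      push_cast
      rfl
    rw [e1, Ex_sum univ (wq (q ^ h)) fun i (ρ : Restr I) => if ρ i = none then (1 : ℝ) else 0]
    rw [sum_congr rfl fun i _ => ex_star (p := q ^ h) i, sum_const, nsmul_eq_mul, card_univ]
  have hstb : Ex (wq (q ^ h)) (fun ρ : Restr I =>
      ((univ.filter fun i => ρ i = none).card : ℝ) * unif (fun x => bad (ov ρ x))) =
      Fintype.card I * (q ^ h * unif bad) := by
    have e1 : (fun ρ : Restr I => ((univ.filter fun i => ρ i = none).card : ℝ) *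
        unif (fun x => bad (ov ρ x))) =
        fun ρ : Restr I => ∑ i, (if ρ i = none then (1 : ℝ) else 0) *
          unif (fun x => bad (ov ρ x)) := by
      funext ρ
      rw [card_filter, ← sum_mul]
      push_cast
      rfl
    rw [e1, Ex_sum univ (wq (q ^ h)) fun i (ρ : Restr I) => (if ρ i = none then (1 : ℝ) else 0) *
          unif (fun x => bad (ov ρ x))]
    rw [sum_congr rfl fun i _ => ex_star_unif (q ^ h) bad i, sum_const, nsmul_eq_mul, card_univ]
  by_contra hcon
  push Not at hcon
  have hw : ∀ a, 0 ≤ wq (q ^ h) a :=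
    wq_nonneg hqh.le (pow_le_one₀ hq0.le (by linarith))
  have hpt : ∀ ρ : Restr I,
      ((univ.filter fun i => ρ i = none).card : ℝ) ≤
      (Fintype.card I : ℝ) * (if ¬ Shallow C s h ρ then (1 : ℝ) else 0) +
        (Fintype.card I : ℝ) * (q ^ h / 16) +
        2 * (((univ.filter fun i => ρ i = none).card : ℝ) * unif (fun x => bad (ov ρ x))) := by
    intro ρ
    have hu : 0 ≤ unif (fun x => bad (ov ρ x)) := unif_nonneg fun x => hb0 _
    have hc0 : (0 : ℝ) ≤ (univ.filter fun i => ρ i = none).card := Nat.cast_nonneg _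
    have hcu := mul_nonneg hc0 hu
    by_cases hS : Shallow C s h ρ
    · have h3 := hcon ρ hS
      simp only [hS, not_true_eq_false, if_false, mul_zero, zero_add]
      have h5 := mul_lt_mul_of_pos_right h3 hqh
      have h6 : 16 * (24 * (s : ℝ)) ^ h * ((univ.filter fun i => ρ i = none).card *
          (1 - 2 * unif (fun x => bad (ov ρ x)))) * q ^ h =
          16 * ((univ.filter fun i => ρ i = none).card *
          (1 - 2 * unif (fun x => bad (ov ρ x)))) := by
        calc _ = 16 * ((univ.filter fun i => ρ i = none).card *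
          (1 - 2 * unif (fun x => bad (ov ρ x)))) * (q ^ h * (24 * (s : ℝ)) ^ h) := by
              ring
          _ = _ := by rw [h4, mul_one]
      rw [h6] at h5
      linarith
    · simp only [hS, not_false_iff, if_true, mul_one]
      have h5 : ((univ.filter fun i => ρ i = none).card : ℝ) ≤ Fintype.card I := by
        exact_mod_cast card_le_univ _
      have h6 : 0 ≤ (Fintype.card I : ℝ) * (q ^ h / 16) := by positivity
      linarith
  have h8 := Ex_mono hw hpt
  rw [hstars, Ex_add, Ex_add, Ex_smul, Ex_const (wq_sum _), Ex_smul, hstb] at h8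
  have h9 := mul_le_mul_of_nonneg_left hcol2 hN.le
  have h10 : 0 < (Fintype.card I : ℝ) * q ^ h := mul_pos hN hqh
  have h11 : (Fintype.card I : ℝ) * (q ^ h * unif bad) ≤ (Fintype.card I : ℝ) * (q ^ h * (1 / 3)) :=
    mul_le_mul_of_nonneg_left (mul_le_mul_of_nonneg_left hbad hqh.le) hN.le
  nlinarith

end restr

end Pool.Agent.D0H57.DT1
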