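import Pool.Agent.D0H57.DT1.Cnf

set_option autoImplicit false

/-!
The hard games.
-/

open scoped Classical
open Finset

namespace Pool.Agent.D0H57.DT1

open H589DT

section

variable {n D p : ℕ} [NeZero p]

/-- the game of `φ`, `B` and the shifts `s` -/
noncomputable def gm (d : ℕ) (φ : Fin n → Fin D → Fin n) (B : Finset (Fin n))
    (s : Fin n → Fin D → ZMod p) : DGame (Fin n) (Fin n) d p where
  adj v w := ∃ i, w ∉ B ∧ φ w i = v
  map v w := if h : ∃ i, φ w i = v then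
    cmap p d (((Classical.choose h : Fin D) : ℕ) : ZMod p) (s w (Classical.choose h)) else
    cmap p d 0 0
  fib v w _ a := by
    split_ifs
    · exact cmap_fib _ _ a
    · exact cmap_fib _ _ a

theorem gm_map {d : ℕ} {φ : Fin n → Fin D → Fin n} {B : Finset (Fin n)}
    (hφ : ∀ w i j, w ∉ B → φ w i = φ w j → i = j) (s : Fin n → Fin D → ZMod p) (w : Fin n)
    (i : Fin D) (hw : w ∉ B) : (gm d φ B s).map (φ w i) w = cmap p d ((i : ℕ) : ZMod p) (s w i) := by
  have h : ∃ j, φ w j = φ w i := ⟨i, rfl⟩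
  show (if h : ∃ j, φ w j = φ w i then
    cmap p d (((Classical.choose h : Fin D) : ℕ) : ZMod p) (s w (Classical.choose h)) else
    cmap p d 0 0) = _
  rw [dif_pos h, hφ w _ i hw (Classical.choose_spec h)]

/-- edges -/
theorem gm_edges {d : ℕ} {φ : Fin n → Fin D → Fin n} {B : Finset (Fin n)}
    (hφ : ∀ w i j, w ∉ B → φ w i = φ w j → i = j) (s : Fin n → Fin D → ZMod p) :
    (univ.filter fun e : Fin n × Fin n => (gm d φ B s).adj e.1 e.2).card =
      Fintype.card (EE D B) := by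
  symm
  rw [← card_univ]
  refine Finset.card_bij (fun e _ => (φ e.1.1 e.1.2, e.1.1)) ?_ ?_ ?_
  · intro e _
    rw [mem_filter]
    exact ⟨mem_univ _, e.1.2, e.2, rfl⟩
  · rintro ⟨⟨w, i⟩, hw⟩ _ ⟨⟨w', i'⟩, hw'⟩ _ h
    have h1 := Prod.mk.inj h
    obtain ⟨h2, h3⟩ := h1
    simp only at h2 h3
    subst h3
    have := hφ w i i' hw h2
    subst this
    rfl
  · rintro ⟨v, w⟩ h
    rw [mem_filter] at h
    obtain ⟨_, i, hw, hv⟩ := h
    exact ⟨⟨(w, i), hw⟩, mem_univ _, Prod.ext hv rfl⟩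

/-- satisfied edges -/
theorem gm_sat {d : ℕ} {φ : Fin n → Fin D → Fin n} {B : Finset (Fin n)}
    (hφ : ∀ w i j, w ∉ B → φ w i = φ w j → i = j) (s : Fin n → Fin D → ZMod p)
    (A : Fin n → Fin p) (M : Fin n → Fin (d * p)) :
    (univ.filter fun e : Fin n × Fin n => (gm d φ B s).adj e.1 e.2 ∧
      (gm d φ B s).map e.1 e.2 (M e.2) = A e.1).card ≤
    (univ.filter fun e : Fin n × Fin D => e.1 ∉ B ∧
      ((eW p d).symm (M e.1)).1 - ((e.2 : ℕ) : ZMod p) * ((((eW p d).symm (M e.1)).2 : ℕ) : ZMod p)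
        + s e.1 e.2 = (eV p).symm (A (φ e.1 e.2))).card := by
  have h : (univ.filter fun e : Fin n × Fin n => (gm d φ B s).adj e.1 e.2 ∧
      (gm d φ B s).map e.1 e.2 (M e.2) = A e.1) ⊆
    (univ.filter fun e : Fin n × Fin D => e.1 ∉ B ∧
      ((eW p d).symm (M e.1)).1 - ((e.2 : ℕ) : ZMod p) * ((((eW p d).symm (M e.1)).2 : ℕ) : ZMod p)
        + s e.1 e.2 = (eV p).symm (A (φ e.1 e.2))).image fun e => (φ e.1 e.2, e.1) := by
    rintro ⟨v, w⟩ he
    rw [mem_filter] at he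
    obtain ⟨_, ⟨i, hw, hv⟩, hs⟩ := he
    simp only at hw hv hs
    rw [mem_image]
    refine ⟨(w, i), ?_, Prod.ext hv rfl⟩
    rw [mem_filter]
    refine ⟨mem_univ _, hw, ?_⟩
    rw [← hv, gm_map hφ s w i hw] at hs
    show ((eW p d).symm (M w)).1 - ((i : ℕ) : ZMod p) * ((((eW p d).symm (M w)).2 : ℕ) : ZMod p)
        + s w i = (eV p).symm (A (φ w i))
    rw [← hs]
    unfold cmap
    rw [Equiv.symm_apply_apply]
  exact (card_le_card h).trans card_image_le

/-- the labellings of the constraint graph give labellings of the game -/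
theorem gm_satE {d : ℕ} {φ : Fin n → Fin D → Fin n} {B : Finset (Fin n)}
    (hφ : ∀ w i j, w ∉ B → φ w i = φ w j → i = j) (s : Fin n → Fin D → ZMod p)
    {S : Finset (Fin n ⊕ Fin n)} {ρ : Fin n ⊕ Fin n → ZMod p × Fin d}
    (h : (gameGraph (d := d) φ B s).SatOn S ρ) (v w : Fin n) (hv : Sum.inl v ∈ S)
    (hw : Sum.inr w ∈ S) (ha : (gm d φ B s).adj v w) :
    (gm d φ B s).map v w (eW p d (ρ (Sum.inr w))) = eV p (ρ (Sum.inl v)).1 := by
  obtain ⟨i, hwB, hi⟩ := ha
  subst hi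
  rw [gm_map hφ s w i hwB]
  have h1 := h ⟨(w, i), hwB⟩ (mem_ein.2 ⟨hv, hw⟩)
  unfold cmap
  rw [Equiv.symm_apply_apply]
  congr 1

omit [NeZero p] in
theorem mem_left {V W : Type} {d R : ℕ} (v : V) (a : Fin R) :
    ((Sum.inl (v, a), true) : ((V × Fin R) ⊕ (W × Fin (d * R))) × Bool) ∈
      univ.image fun a => (Sum.inl (v, a), true) :=
  mem_image.2 ⟨a, mem_univ _, rfl⟩

omit [NeZero p] in
theorem mem_right {V W : Type} {d R : ℕ} (w : W) (b : Fin (d * R)) :
    ((Sum.inr (w, b), true) : ((V × Fin R) ⊕ (W × Fin (d * R))) × Bool) ∈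
      univ.image fun b => (Sum.inr (w, b), true) :=
  mem_image.2 ⟨b, mem_univ _, rfl⟩

/-- no narrow refutation -/
theorem gm_narrow {d : ℕ} [NeZero d] {φ : Fin n → Fin D → Fin n} {B : Finset (Fin n)}
    (hφ : ∀ w i j, w ∉ B → φ w i = φ w j → i = j) (s : Fin n → Fin D → ZMod p) {l : ℕ}
    (F : Local (Fin n ⊕ Fin n) (ZMod p × Fin d) l)
    (hF : ∀ S ρ, F.C S ρ → (gameGraph (d := d) φ B s).SatOn S ρ) {k : ℕ} (hk : k + 1 ≤ l) :
    ¬ Narrow (gameCnf (gm d φ B s)) k ∅ := by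
  intro hN
  have h := no_narrow F (gameCnf (gm d φ B s))
    (Sum.elim (fun x => Sum.inl x.1) fun x => Sum.inr x.1)
    (fun (a : ZMod p × Fin d) => Sum.elim (fun x => eV p a.1 = x.2) fun x => eW p d a = x.2)
    ?_ hk hN
  · obtain ⟨ρ, hρ⟩ := F.empty
    obtain ⟨a, ha, _⟩ := h ∅ ρ hρ (fun a ha => absurd ha (notMem_empty _))
    exact notMem_empty _ ha
  · intro C hC S ρ hS hSC
    have hsat := hF S ρ hS
    rcases hC with ⟨v, rfl⟩ | ⟨w, rfl⟩ | ⟨v, a, a', haa, rfl⟩ | ⟨w, b, b', hbb, rfl⟩ |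
      ⟨v, w, a, b, hadj, hmap, rfl⟩
    · refine ⟨(Sum.inl (v, eV p (ρ (Sum.inl v)).1), true), ?_, ?_⟩
      · exact mem_left _ _
      · simp
    · refine ⟨(Sum.inr (w, eW p d (ρ (Sum.inr w))), true), ?_, ?_⟩
      · exact mem_right _ _
      · simp
    · by_cases h1 : eV p (ρ (Sum.inl v)).1 = a
      · refine ⟨(Sum.inl (v, a'), false), by simp, ?_⟩
        simp only [Sum.elim_inl, Bool.false_eq_true, iff_false]
        intro h2
        exact haa (h1.symm.trans h2)
      · refine ⟨(Sum.inl (v, a), false), by simp, ?_⟩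
        simp only [Sum.elim_inl, Bool.false_eq_true, iff_false]
        exact h1
    · by_cases h1 : eW p d (ρ (Sum.inr w)) = b
      · refine ⟨(Sum.inr (w, b'), false), by simp, ?_⟩
        simp only [Sum.elim_inr, Bool.false_eq_true, iff_false]
        intro h2
        exact hbb (h1.symm.trans h2)
      · refine ⟨(Sum.inr (w, b), false), by simp, ?_⟩
        simp only [Sum.elim_inr, Bool.false_eq_true, iff_false]
        exact h1
    · have hv : Sum.inl v ∈ S := hSC (Sum.inl (v, a), false) (by simp)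
      have hw : Sum.inr w ∈ S := hSC (Sum.inr (w, b), false) (by simp)
      have h3 := gm_satE hφ s hsat v w hv hw hadj
      by_cases h1 : eV p (ρ (Sum.inl v)).1 = a
      · refine ⟨(Sum.inr (w, b), false), by simp, ?_⟩
        simp only [Sum.elim_inr, Bool.false_eq_true, iff_false]
        intro h2
        rw [h2, h1] at h3
        exact hmap h3
      · refine ⟨(Sum.inl (v, a), false), by simp, ?_⟩
        simp only [Sum.elim_inl, Bool.false_eq_true, iff_false]
        exact h1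

end

/-- the widths of the clauses -/
theorem gameCnf_width {V W : Type} {d R : ℕ} (I : DGame V W d R) (t : ℕ) (h1 : R ≤ t)
    (h2 : d * R ≤ t) (h3 : 2 ≤ t) : ∀ C ∈ gameCnf I, C.card ≤ t := by
  intro C hC
  rcases hC with ⟨v, rfl⟩ | ⟨w, rfl⟩ | ⟨v, a, a', haa, rfl⟩ | ⟨w, b, b', hbb, rfl⟩ |
      ⟨v, w, a, b, hadj, hmap, rfl⟩
  · exact card_image_le.trans (by rw [card_univ, Fintype.card_fin]; exact h1)
  · exact card_image_le.trans (by rw [card_univ, Fintype.card_fin]; exact h2)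
  · exact card_le_two.trans h3
  · exact card_le_two.trans h3
  · exact card_le_two.trans h3

/-- the games: linear local consistency -/
theorem hard_games (d : ℕ) (hd : 2 ≤ d) (ε : ℝ) (hε : 0 < ε) :
    ∃ (p D q n0 : ℕ) (_ : NeZero p), 1 ≤ q ∧ ∀ n : ℕ, n0 ≤ n →
      ∃ (φ : Fin n → Fin D → Fin n) (B : Finset (Fin n)) (s : Fin n → Fin D → ZMod p),
        (∀ w i j, w ∉ B → φ w i = φ w j → i = j) ∧ DNo ε (gm d φ B s) ∧
        ∀ l : ℕ, q * l ≤ n → ∃ F : Local (Fin n ⊕ Fin n) (ZMod p × Fin d) l,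
          ∀ S ρ, F.C S ρ → (gameGraph (d := d) φ B s).SatOn S ρ := by
  obtain ⟨p, D, hp, hkp, hDp, hD⟩ := choice_p d (Nat.ceil (8 / ε)) hd
  set k := Nat.ceil (8 / ε) with hk
  have hp1 : 1 ≤ p := hp.one_lt.le
  have : NeZero p := ⟨hp.pos.ne'⟩
  have : NeZero d := ⟨by omega⟩
  set r := 2 * (d * p) + 4 with hr
  set h := 3 * r with hh
  have hD1 : 1 ≤ D := by
    by_contra h0
    have : D = 0 := by omega
    rw [this, pow_zero] at hD
    have : 1 ≤ d * p ^ 2 := Nat.mul_pos (by omega) (pow_pos hp.pos 2)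
    omega
  obtain ⟨n0, hn0⟩ := ex_lin D (2 * h) r (by omega)
  refine ⟨p, D, (8 * (6 * 2 ^ D)) ^ (2 * h) * (4 * (h + 1)), n0 + Nat.ceil (4 / ε) + 1,
    inferInstance, Nat.mul_pos (Nat.pow_pos (by positivity)) (by omega), ?_⟩
  intro n hn
  obtain ⟨φ, B, hB, hsp, hgi⟩ := hn0 n (by omega)
  have hφ := phi_inj (fun S hS hS2 => hgi S hS (hS2.trans (by omega)))
  have hEE := card_EE (D := D) B
  have hE2 : n * D ≤ 2 * Fintype.card (EE D B) := by
    rw [hEE]
    calc n * D ≤ (2 * (n - B.card)) * D := Nat.mul_le_mul_right _ (by omega)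
      _ = _ := by ring
  set EC := Fintype.card (EE D B) with hEC
  have hEC1 : 1 ≤ EC := by
    have : 1 ≤ n * D := Nat.mul_pos (by omega) hD1
    omega
  set K := Nat.ceil (ε * EC / 2) with hK
  have hpK : (d * p ^ 2) ^ n * 2 ^ (D * n) < p ^ K := by
    have h1 : 2 * (D * n) ≤ k * K := by
      have h2 : (8 / ε : ℝ) ≤ k := Nat.le_ceil _
      have h3 : ε * EC / 2 ≤ (K : ℝ) := Nat.le_ceil _
      have h4 : (4 * EC : ℝ) ≤ k * K := by
        calc (4 * EC : ℝ) = (8 / ε) * (ε * EC / 2) := by field_simp; ring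
          _ ≤ k * K := mul_le_mul h2 h3 (by positivity) (by positivity)
      have h5 : (4 * EC : ℕ) ≤ k * K := by exact_mod_cast h4
      calc 2 * (D * n) = 2 * (n * D) := by ring
        _ ≤ 2 * (2 * EC) := Nat.mul_le_mul_left _ hE2
        _ = 4 * EC := by ring
        _ ≤ _ := h5
    have hn1 : n ≠ 0 := by omega
    calc (d * p ^ 2) ^ n * 2 ^ (D * n) < (2 ^ D) ^ n * 2 ^ (D * n) := by
          apply Nat.mul_lt_mul_of_pos_right _ (by positivity)
          exact Nat.pow_lt_pow_left hD hn1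
      _ = 2 ^ (2 * (D * n)) := by rw [← pow_mul, two_mul, pow_add]
      _ ≤ 2 ^ (k * K) := Nat.pow_le_pow_right (by norm_num) h1
      _ = (2 ^ k) ^ K := by rw [pow_mul]
      _ ≤ p ^ K := Nat.pow_le_pow_left hkp K
  obtain ⟨s, hs⟩ := t_SH n D p d K hp1 φ B hpK
  refine ⟨φ, B, s, hφ, ?_, ?_⟩
  · intro A M
    have h1 := gm_sat hφ s A M
    have h2 := hs (fun w => (eW p d).symm (M w)) (fun v => (eV p).symm (A v))
    have h3 : (univ.filter fun e : Fin n × Fin n => (gm d φ B s).adj e.1 e.2 ∧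
      (gm d φ B s).map e.1 e.2 (M e.2) = A e.1).card < K := by
      refine lt_of_le_of_lt h1 ?_
      exact h2
    rw [gm_edges hφ s, ← hEC]
    have h4 : (K : ℝ) < ε * EC / 2 + 1 := Nat.ceil_lt_add_one (by positivity)
    have h5 : (((univ.filter fun e : Fin n × Fin n => (gm d φ B s).adj e.1 e.2 ∧
      (gm d φ B s).map e.1 e.2 (M e.2) = A e.1).card : ℕ) : ℝ) + 1 ≤ K := by exact_mod_cast h3
    have h6 : (1 : ℝ) ≤ EC := by exact_mod_cast hEC1
    have h7 : 0 < ε * EC := by positivity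
    linarith
  · intro l hl
    set G := gameGraph (d := d) φ B s with hG
    have hGgirth : G.Girth r := fun S hS hSr => lt_of_le_of_lt (ein_le φ B s S) (hgi S hS hSr)
    have hGsparse : G.Sparse (2 * h) (4 * (h + 1) * l) := by
      intro S hS
      refine (ein_le φ B s S).trans (hsp S ?_)
      calc (8 * (6 * 2 ^ D)) ^ (2 * h) * S.card ≤ (8 * (6 * 2 ^ D)) ^ (2 * h) *
            (4 * (h + 1) * l) := Nat.mul_le_mul_left _ hS
        _ = (8 * (6 * 2 ^ D)) ^ (2 * h) * (4 * (h + 1)) * l := by ring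
        _ ≤ n := hl
    exact lo_all _ _ _ G r h (4 * (h + 1) * l) l (by omega) le_rfl
      (gameGraph_surj (by omega) φ B s) (t_MX n D p d hp hDp hd φ B s) hGgirth hGsparse le_rfl

end Pool.Agent.D0H57.DT1
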