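import Pool.Agent.D0H57.DT1.Cnf

set_option autoImplicit false

/-!
Unique games (`d = 1`): short and narrow refutations.
-/

open scoped Classical
open Finset

namespace Pool.Agent.D0H57.DT1

open H589DT

section general

variable {X : Type} [DecidableEq X] {F : Set (Finset (X × Bool))} {k : ℕ}

/-- resolving away all but one of the literals of a positive clause -/
theorem resolve_all {Λ : Type} [Fintype Λ] (g : Λ → X) (Y : Finset (X × Bool)) (c0 : Λ → Prop)
    (hpos : Narrow F k (univ.image fun c => (g c, true)))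
    (hneg : ∀ c, ¬ c0 c → Narrow F k (insert (g c, false) Y))
    (hk : Fintype.card Λ + Y.card ≤ k) [Nonempty X] :
    Narrow F k (Y ∪ (univ.filter c0).image fun c => (g c, true)) := by
  have h : ∀ T : Finset Λ, (∀ c ∈ T, ¬ c0 c) →
      Narrow F k (Y ∪ (univ \ T).image fun c => (g c, true)) := by
    intro T
    induction T using Finset.induction_on with
    | empty =>
      intro _
      refine hpos.weaken ?_ ?_
      · rw [sdiff_empty]
        exact subset_union_right
      · rw [sdiff_empty]
        refine (card_union_le _ _).trans ?_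
        have : (univ.image fun c => (g c, true)).card ≤ Fintype.card Λ := card_image_le
        omega
    | insert c T _ ih =>
      intro hT
      have ih' := ih fun c hc => hT c (mem_insert_of_mem hc)
      refine Narrow.step _ _ _ ih' (hneg c (hT c (mem_insert_self _ _))) ⟨g c, ?_, ?_⟩ ?_
      · intro z hz
        rw [mem_coe, mem_union, mem_image] at hz
        rw [Set.mem_insert_iff, mem_coe, mem_union, mem_image]
        rcases hz with hz | ⟨c', hc', rfl⟩
        · exact Or.inr (Or.inl hz)
        · by_cases h : c' = c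
          · subst h
            exact Or.inl rfl
          · refine Or.inr (Or.inr ⟨c', ?_, rfl⟩)
            rw [mem_sdiff] at hc' ⊢
            refine ⟨mem_univ _, ?_⟩
            rw [mem_insert]
            rintro (h' | h')
            · exact h h'
            · exact hc'.2 h'
      · intro z hz
        rw [mem_coe, mem_insert] at hz
        rw [Set.mem_insert_iff, mem_coe, mem_union]
        rcases hz with hz | hz
        · exact Or.inl hz
        · exact Or.inr (Or.inl hz)
      · refine (card_union_le _ _).trans ?_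
        have h1 : ((univ \ insert c T).image fun c => (g c, true)).card ≤ Fintype.card Λ :=
          card_image_le.trans (card_le_univ _)
        omega
  have h2 := h (univ.filter fun c => ¬ c0 c) (fun c hc => (mem_filter.1 hc).2)
  have h3 : (univ \ univ.filter fun c => ¬ c0 c) = univ.filter c0 := by
    ext c
    simp
  rw [h3] at h2
  exact h2

/-- from narrow proofs to short lists -/
theorem short_of_narrow [Fintype X] (h : Narrow F k ∅) :
    ∃ L : List (Finset (X × Bool)), Refutes F L ∧ (∀ C ∈ L, C.card ≤ k) ∧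
      L.length ≤ (2 * Fintype.card X + 1) ^ k := by
  -- the number of narrow clauses
  obtain ⟨N, hN⟩ : ∃ N : Finset (Finset (X × Bool)), N = univ.filter fun C => C.card ≤ k :=
    ⟨_, rfl⟩
  have hNc : N.card ≤ (2 * Fintype.card X + 1) ^ k := by
    have h1 : N ⊆ (univ : Finset (Fin k → Option (X × Bool))).image
        fun f => univ.filter fun a => ∃ i, f i = some a := by
      intro C hC
      rw [hN, mem_filter] at hC
      rw [mem_image]
      obtain ⟨e⟩ : Nonempty (C ↪ Fin k) := Function.Embedding.nonempty_of_card_le (by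
        rw [Fintype.card_coe, Fintype.card_fin]
        exact hC.2)
      refine ⟨fun i => if h : ∃ a : C, e a = i then some (Classical.choose h).1 else none,
        mem_univ _, ?_⟩
      ext a
      rw [mem_filter]
      constructor
      · rintro ⟨_, i, hi⟩
        dsimp only at hi
        split_ifs at hi with h
        · rw [← Option.some.inj hi]
          exact (Classical.choose h).2
      · intro ha
        refine ⟨mem_univ _, e ⟨a, ha⟩, ?_⟩
        have h : ∃ b : C, e b = e ⟨a, ha⟩ := ⟨_, rfl⟩
        dsimp only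
        rw [dif_pos h, e.injective (Classical.choose_spec h)]
    refine (card_le_card h1).trans (card_image_le.trans ?_)
    rw [card_univ, Fintype.card_fun, Fintype.card_option, Fintype.card_prod, Fintype.card_bool,
      Fintype.card_fin, mul_comm 2]
  -- a maximal proof without repetitions
  let P : ℕ → Prop := fun m => ∃ L : List (Finset (X × Bool)), L.length = m ∧ L.Nodup ∧
    IsProof F L ∧ ∀ C ∈ L, C.card ≤ k
  have hP0 : P 0 := ⟨[], rfl, List.nodup_nil, trivial, fun C hC => absurd hC List.not_mem_nil⟩
  have hPb : ∀ m, P m → m ≤ N.card := by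
    rintro m ⟨L, hL, hnd, _, hw⟩
    rw [← hL, ← List.toFinset_card_of_nodup hnd]
    refine card_le_card ?_
    intro C hC
    rw [hN, mem_filter]
    exact ⟨mem_univ _, hw C (List.mem_toFinset.1 hC)⟩
  obtain ⟨m, hm, hmax⟩ : ∃ m, P m ∧ ∀ m', P m' → m' ≤ m := by
    refine ⟨Nat.findGreatest P N.card, Nat.findGreatest_spec (Nat.zero_le _) hP0, ?_⟩
    intro m' hm'
    exact Nat.le_findGreatest (hPb m' hm') hm'
  obtain ⟨L, hL, hnd, hpr, hw⟩ := hm
  have hall : ∀ C, Narrow F k C → C ∈ L := by
    intro C hC
    induction hC with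
    | ax C h1 h2 =>
      by_contra hcon
      have := hmax (L.length + 1) ⟨C :: L, rfl, List.nodup_cons.2 ⟨hcon, hnd⟩,
        ⟨Or.inl h1, hpr⟩, fun D hD => by
          rcases List.mem_cons.1 hD with h | h
          · rw [h]; exact h2
          · exact hw D h⟩
      omega
    | step C D E _ _ h3 h4 ihC ihD =>
      by_contra hcon
      have := hmax (L.length + 1) ⟨E :: L, rfl, List.nodup_cons.2 ⟨hcon, hnd⟩,
        ⟨Or.inr ⟨C, ihC, D, ihD, h3⟩, hpr⟩, fun D hD => by
          rcases List.mem_cons.1 hD with h | h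
          · rw [h]; exact h4
          · exact hw D h⟩
      omega
  refine ⟨L, ⟨hpr, hall ∅ h⟩, hw, ?_⟩
  rw [hL]
  exact (hPb m ⟨L, hL, hnd, hpr, hw⟩).trans hNc

end general

section one

variable {V W : Type} {R : ℕ}

/-- the labels of a vertex -/
abbrev Lab (R : ℕ) : V ⊕ W → Type := Sum.elim (fun _ => Fin R) fun _ => Fin (1 * R)

/-- the variable for a vertex and a label; right labels are identified with left labels -/
def vr (u : V ⊕ W) (a : Fin R) : (V × Fin R) ⊕ (W × Fin (1 * R)) :=
  Sum.elim (fun v => Sum.inl (v, a)) (fun w => Sum.inr (w, Fin.cast (one_mul R).symm a)) u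

/-- `β` is the constraint between `u` and `u'` -/
def Link (I : DGame V W 1 R) (u u' : V ⊕ W) (β : Fin R → Fin R) : Prop :=
  ∀ b c, c ≠ β b → Narrow (gameCnf I) (R + 1) {(vr u b, false), (vr u' c, false)}

theorem pos_ax (I : DGame V W 1 R) (u : V ⊕ W) :
    Narrow (gameCnf I) (R + 1) (univ.image fun a => (vr u a, true)) := by
  have hc : (univ.image fun a => ((vr u a, true) : ((V × Fin R) ⊕ (W × Fin (1 * R))) × Bool)).card
      ≤ R + 1 := card_image_le.trans (by rw [card_univ, Fintype.card_fin]; omega)
  refine Narrow.ax _ ?_ hc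
  rcases u with v | w
  · exact Or.inl ⟨v, rfl⟩
  · refine Or.inr (Or.inl ⟨w, ?_⟩)
    ext z
    constructor
    · intro hz
      obtain ⟨a, _, rfl⟩ := mem_image.1 hz
      exact mem_image.2 ⟨Fin.cast (one_mul R).symm a, mem_univ _, rfl⟩
    · intro hz
      obtain ⟨b, _, rfl⟩ := mem_image.1 hz
      exact mem_image.2 ⟨Fin.cast (one_mul R) b, mem_univ _, rfl⟩

theorem fun_ax (hR : 1 ≤ R) (I : DGame V W 1 R) (u : V ⊕ W) (a a' : Fin R) (h : a ≠ a') :
    Narrow (gameCnf I) (R + 1) {(vr u a, false), (vr u a', false)} := by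
  refine Narrow.ax _ ?_ (card_le_two.trans (by omega))
  rcases u with v | w
  · exact Or.inr (Or.inr (Or.inl ⟨v, a, a', h, rfl⟩))
  · refine Or.inr (Or.inr (Or.inr (Or.inl ⟨w, Fin.cast (one_mul R).symm a,
      Fin.cast (one_mul R).symm a', ?_, rfl⟩)))
    intro h'
    exact h (Fin.cast_injective _ h')

/-- the label `b` of `u` follows from the label `a` of `r` -/
def Fol (I : DGame V W 1 R) (r : V ⊕ W) (a : Fin R) (u : V ⊕ W) (b : Fin R) : Prop :=
  (u = r ∧ b = a) ∨ Narrow (gameCnf I) (R + 1) {(vr r a, false), (vr u b, true)}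

theorem fol_step (hR : 1 ≤ R) (I : DGame V W 1 R) {r u u' : V ⊕ W} {a b : Fin R}
    {β : Fin R → Fin R} (hβ : Link I u u' β) (h : Fol I r a u b) : Fol I r a u' (β b) := by
  have : Nonempty ((V × Fin R) ⊕ (W × Fin (1 * R))) := ⟨vr u b⟩
  right
  have h1 : Narrow (gameCnf I) (R + 1) {(vr u b, false), (vr u' (β b), true)} := by
    have h2 := resolve_all (F := gameCnf I) (k := R + 1) (vr u') {(vr u b, false)}
      (fun c => c = β b) (pos_ax I u') (fun c hc => by
        have := hβ b c hc
        rw [pair_comm] at this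
        exact this) (by rw [Fintype.card_fin, card_singleton])
    convert h2 using 1
    ext z
    simp only [mem_union, mem_singleton, mem_image, mem_filter, mem_univ, true_and, mem_insert,
      exists_eq_left, eq_comm]
  rcases h with ⟨rfl, rfl⟩ | h
  · exact h1
  · refine Narrow.step _ _ _ h h1 ⟨vr u b, ?_, ?_⟩ (card_le_two.trans (by omega))
    · intro z hz
      rw [mem_coe, mem_insert, mem_singleton] at hz
      rw [Set.mem_insert_iff, mem_coe, mem_insert, mem_singleton]
      tauto
    · intro z hz
      rw [mem_coe, mem_insert, mem_singleton] at hz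
      rw [Set.mem_insert_iff, mem_coe, mem_insert, mem_singleton]
      tauto

theorem fol_unique (hR : 1 ≤ R) (I : DGame V W 1 R) {r u : V ⊕ W} {a b b' : Fin R}
    (h : Fol I r a u b) (h' : Fol I r a u b') (hbb : b ≠ b') :
    Narrow (gameCnf I) (R + 1) {(vr r a, false)} := by
  have hf := fun_ax hR I u b b' hbb
  have h1 : ∀ c, Fol I r a u c → ∀ c', Narrow (gameCnf I) (R + 1)
      {(vr u c, false), (vr u c', false)} →
      Narrow (gameCnf I) (R + 1) {(vr r a, false), (vr u c', false)} := by
    intro c hc c' hcc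
    rcases hc with ⟨rfl, rfl⟩ | hc
    · exact hcc
    · refine Narrow.step _ _ _ hc hcc ⟨vr u c, ?_, ?_⟩ (card_le_two.trans (by omega))
      · intro z hz
        rw [mem_coe, mem_insert, mem_singleton] at hz
        rw [Set.mem_insert_iff, mem_coe, mem_insert, mem_singleton]
        tauto
      · intro z hz
        rw [mem_coe, mem_insert, mem_singleton] at hz
        rw [Set.mem_insert_iff, mem_coe, mem_insert, mem_singleton]
        tauto
  have h2 := h1 b h b' hf
  rcases h' with ⟨rfl, rfl⟩ | h'
  · rw [pair_eq_singleton] at h2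
    exact h2
  · refine Narrow.step _ _ _ h' h2 ⟨vr u b', ?_, ?_⟩ (by rw [card_singleton]; omega)
    · intro z hz
      rw [mem_coe, mem_insert, mem_singleton] at hz
      rw [Set.mem_insert_iff, mem_coe, mem_singleton]
      tauto
    · intro z hz
      rw [mem_coe, mem_insert, mem_singleton] at hz
      rw [Set.mem_insert_iff, mem_coe, mem_singleton]
      tauto

/-- the constraint of an edge as a bijection -/
theorem edge_link (hR : 1 ≤ R) (I : DGame V W 1 R) {v : V} {w : W} (h : I.adj v w) :
    ∃ β γ : Fin R → Fin R, Link I (Sum.inl v) (Sum.inr w) β ∧ Link I (Sum.inr w) (Sum.inl v) γ ∧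
      ∀ a, I.map v w (Fin.cast (one_mul R).symm (β a)) = a := by
  have hinj : Function.Injective fun b : Fin R => I.map v w (Fin.cast (one_mul R).symm b) := by
    intro b b' hbb
    by_contra hne
    have h1 := I.fib v w h (I.map v w (Fin.cast (one_mul R).symm b))
    have h2 : ({Fin.cast (one_mul R).symm b, Fin.cast (one_mul R).symm b'} : Finset (Fin (1 * R))) ⊆
        univ.filter fun c => I.map v w c = I.map v w (Fin.cast (one_mul R).symm b) := by
      intro c hc
      rw [mem_insert, mem_singleton] at hc
      rw [mem_filter]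
      refine ⟨mem_univ _, ?_⟩
      rcases hc with rfl | rfl
      · rfl
      · exact hbb.symm
    have h3 := (card_le_card h2).trans h1
    rw [card_pair (fun h' => hne (Fin.cast_injective _ h'))] at h3
    omega
  obtain ⟨hb1, hb2⟩ := Finite.injective_iff_bijective.1 hinj
  choose β hβ using hb2
  refine ⟨β, fun b => I.map v w (Fin.cast (one_mul R).symm b), ?_, ?_, hβ⟩
  · intro a c hc
    refine Narrow.ax _ (Or.inr (Or.inr (Or.inr (Or.inr
      ⟨v, w, a, Fin.cast (one_mul R).symm c, h, ?_, rfl⟩)))) (card_le_two.trans (by omega))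
    intro h'
    exact hc (hb1 (h'.trans (hβ a).symm))
  · intro b a ha
    have h1 : Narrow (gameCnf I) (R + 1)
        {(Sum.inl (v, a), false), (Sum.inr (w, Fin.cast (one_mul R).symm b), false)} := by
      refine Narrow.ax _ (Or.inr (Or.inr (Or.inr (Or.inr
        ⟨v, w, a, Fin.cast (one_mul R).symm b, h, ?_, rfl⟩)))) (card_le_two.trans (by omega))
      exact fun h' => ha h'.symm
    rw [pair_comm] at h1
    exact h1

/-- unique games of value less than one have narrow refutations -/
theorem one_narrow (hR : 1 ≤ R) (I : DGame V W 1 R)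
    (hI : ¬ ∃ (A : V → Fin R) (M : W → Fin (1 * R)), ∀ v w, I.adj v w → I.map v w (M w) = A v) :
    Narrow (gameCnf I) (R + 1) ∅ := by
  by_contra hcon
  apply hI
  -- the components
  let E : V ⊕ W → V ⊕ W → Prop := fun u u' => (∃ v w, I.adj v w ∧ u = Sum.inl v ∧ u' = Sum.inr w) ∨
    ∃ v w, I.adj v w ∧ u = Sum.inr w ∧ u' = Sum.inl v
  have hEsymm : ∀ u u', E u u' → E u' u := by
    rintro u u' (⟨v, w, h, rfl, rfl⟩ | ⟨v, w, h, rfl, rfl⟩)
    · exact Or.inr ⟨v, w, h, rfl, rfl⟩
    · exact Or.inl ⟨v, w, h, rfl, rfl⟩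
  have hsymm : ∀ u u', Relation.ReflTransGen E u u' → Relation.ReflTransGen E u' u := by
    intro u u' h
    induction h with
    | refl => exact Relation.ReflTransGen.refl
    | tail _ h2 ih => exact (Relation.ReflTransGen.single (hEsymm _ _ h2)).trans ih
  let S : Setoid (V ⊕ W) := ⟨Relation.ReflTransGen E, ⟨fun _ => Relation.ReflTransGen.refl,
    fun h => hsymm _ _ h, fun h1 h2 => h1.trans h2⟩⟩
  let rep : V ⊕ W → V ⊕ W := fun u => (Quotient.mk S u).out
  have hrep : ∀ u, Relation.ReflTransGen E (rep u) u := fun u => Quotient.mk_out (s := S) u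
  have hrepE : ∀ u u', E u u' → rep u = rep u' := by
    intro u u' h
    show (Quotient.mk S u).out = (Quotient.mk S u').out
    rw [Quotient.sound (s := S) (Relation.ReflTransGen.single h : Relation.ReflTransGen E u u')]
  -- a label of the representative which is not refuted
  have hlab : ∀ r : V ⊕ W, ∃ a : Fin R, ¬ Narrow (gameCnf I) (R + 1) {(vr r a, false)} := by
    intro r
    by_contra hall
    push Not at hall
    apply hcon
    have : Nonempty ((V × Fin R) ⊕ (W × Fin (1 * R))) := ⟨vr r ⟨0, hR⟩⟩
    have h := resolve_all (F := gameCnf I) (k := R + 1) (vr r) ∅ (fun _ => False) (pos_ax I r)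
      (fun c _ => hall c) (by rw [Fintype.card_fin, card_empty]; omega)
    simpa using h
  choose lab0 hlab0 using hlab
  -- the propagated labels
  have hex : ∀ r u, Relation.ReflTransGen E r u → ∃ b, Fol I r (lab0 r) u b := by
    intro r u h
    induction h with
    | refl => exact ⟨lab0 r, Or.inl ⟨rfl, rfl⟩⟩
    | tail _ hE ih =>
      obtain ⟨b, hb⟩ := ih
      rcases hE with ⟨v, w, h, rfl, rfl⟩ | ⟨v, w, h, rfl, rfl⟩
      · obtain ⟨β, γ, h1, h2, _⟩ := edge_link hR I h
        exact ⟨β b, fol_step hR I h1 hb⟩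
      · obtain ⟨β, γ, h1, h2, _⟩ := edge_link hR I h
        exact ⟨γ b, fol_step hR I h2 hb⟩
  choose lab hlab using fun u => hex (rep u) u (hrep u)
  refine ⟨fun v => lab (Sum.inl v), fun w => Fin.cast (one_mul R).symm (lab (Sum.inr w)), ?_⟩
  intro v w h
  obtain ⟨β, γ, h1, h2, h3⟩ := edge_link hR I h
  have h4 := fol_step hR I h1 (hlab (Sum.inl v))
  have hrr : rep (Sum.inl v) = rep (Sum.inr w) := hrepE _ _ (Or.inl ⟨v, w, h, rfl, rfl⟩)
  rw [hrr] at h4
  have h5 : β (lab (Sum.inl v)) = lab (Sum.inr w) := by
    by_contra hne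
    exact hlab0 _ (fol_unique hR I h4 (hlab (Sum.inr w)) hne)
  show I.map v w (Fin.cast (one_mul R).symm (lab (Sum.inr w))) = lab (Sum.inl v)
  rw [← h5, h3]

end one

/-- unique games of value less than one have short and narrow refutations -/
theorem one_short {V W : Type} [Fintype V] [Fintype W] {R : ℕ} (hR : 1 ≤ R) (I : DGame V W 1 R)
    (hI : ¬ ∃ (A : V → Fin R) (M : W → Fin (1 * R)), ∀ v w, I.adj v w → I.map v w (M w) = A v) :
    ∃ L : List (Finset (((V × Fin R) ⊕ (W × Fin (1 * R))) × Bool)), Refutes (gameCnf I) L ∧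
      (∀ C ∈ L, C.card ≤ R + 1) ∧
      L.length ≤ (2 * R * (Fintype.card V + Fintype.card W) + 1) ^ (R + 1) := by
  obtain ⟨L, h1, h2, h3⟩ := short_of_narrow (one_narrow hR I hI)
  refine ⟨L, h1, h2, h3.trans (le_of_eq ?_)⟩
  rw [Fintype.card_sum, Fintype.card_prod, Fintype.card_prod, Fintype.card_fin, Fintype.card_fin]
  congr 1
  ring

end Pool.Agent.D0H57.DT1
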