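import Pool.Agent.D0H57.DT1.Ac

set_option autoImplicit false
set_option linter.unusedSectionVars false

/-!
The counting argument for the constraints that disappear when a bit is flipped.
-/

namespace Pool.Agent.D0H57.DT1

open Finset DomAC0 H568R2 Pool.Agent.TH163.AC3 Pool.Agent.Y601.SSE
open Pool.Agent.TH163.AC2 (unif unif_eq unif_restr unif_mono unif_smul unif_sum unif_const
  unif_nonneg)

open scoped Classical

/-- The label cover instance whose constraints are those of `E` (the constraint `c` wants the map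
`π c` to take the label of the right vertex `w c` to the label of the left vertex `v c`) is a right
answer: if `odd` fails then some labelling satisfies all constraints (value one), and if `odd` holds
then there is a constraint and every labelling satisfies less than a fraction `ε` of the
constraints (value less than `ε`). -/
def Right {V W K A B : Type} (v : K → V) (w : K → W) (π : K → A → B) (ε : ℝ) (odd : Prop)
    (E : Finset K) : Prop :=
  (¬ odd → ∃ (L : V → B) (M : W → A), ∀ c ∈ E, π c (M (w c)) = L (v c)) ∧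
    (odd → E.Nonempty ∧ ∀ (L : V → B) (M : W → A),
      ((E.filter fun c => π c (M (w c)) = L (v c)).card : ℝ) < ε * E.card)

section core

variable {I : Type} [Fintype I] [DecidableEq I] {V W K A B : Type} [Fintype K]

theorem lose (v : K → V) (w : K → W) (π : K → A → B) (ε : ℝ) {E E' : Finset K} {p q : Prop}
    (hE : Right v w π ε p E) (hp : p) (hE' : Right v w π ε q E') (hq : ¬ q) :
    (1 - ε) * E.card ≤ ((E.filter fun c => c ∉ E').card : ℝ) := by
  obtain ⟨L, M, hLM⟩ := hE'.1 hq
  obtain ⟨_, h2⟩ := hE.2 hp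
  have h3 := h2 L M
  have h4 : E.card ≤ (E.filter fun c => π c (M (w c)) = L (v c)).card +
      (E.filter fun c => c ∉ E').card := by
    refine le_trans (card_le_card ?_) (card_union_le _ _)
    intro c hc
    rw [mem_union, mem_filter, mem_filter]
    by_cases h : c ∈ E'
    · exact Or.inl ⟨hc, hLM c h⟩
    · exact Or.inr ⟨hc, h⟩
  have h5 : (E.card : ℝ) ≤ ((E.filter fun c => π c (M (w c)) = L (v c)).card : ℝ) +
      ((E.filter fun c => c ∉ E').card : ℝ) := by exact_mod_cast h4
  linarith

/-- at most `s / (1 - ε)` of the neighbours of a right odd point are right -/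
theorem few_right {s : ℕ} (v : K → V) (w : K → W) (π : K → A → B) (ε : ℝ)
    (E : (I → Bool) → Finset K) (p : (I → Bool) → Prop)
    (hdt : ∀ c, HasDT s fun x => decide (c ∈ E x)) (J : Finset I) (x : I → Bool)
    (hx : Right v w π ε (p x) (E x)) (hp : p x) (hJ : ∀ i ∈ J, ¬ p (Y601.SSE.flip i x)) :
    (1 - ε) * ((J.filter fun i => Right v w π ε (p (Y601.SSE.flip i x)) (E (Y601.SSE.flip i x))).card : ℝ) ≤ s := by
  obtain ⟨hne, _⟩ := hx.2 hp
  have hcard : (0 : ℝ) < (E x).card := by exact_mod_cast hne.card_pos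
  have h1 : ∑ i ∈ J, (((E x).filter fun c => c ∉ E (Y601.SSE.flip i x)).card : ℝ) ≤ s * (E x).card := by
    have h2 : ∑ i ∈ J, ((E x).filter fun c => c ∉ E (Y601.SSE.flip i x)).card =
        ∑ c ∈ E x, (J.filter fun i => c ∉ E (Y601.SSE.flip i x)).card := by
      simp_rw [card_filter]
      exact sum_comm
    have h3 : ∑ c ∈ E x, (J.filter fun i => c ∉ E (Y601.SSE.flip i x)).card ≤ ∑ c ∈ E x, s := by
      refine sum_le_sum fun c hc => ?_
      refine le_trans (card_le_card ?_) (sens_le (hdt c) J x)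
      intro i hi
      rw [mem_filter] at hi ⊢
      exact ⟨hi.1, by simp [hi.2, hc]⟩
    rw [sum_const, smul_eq_mul, ← h2] at h3
    have h4 : ((∑ i ∈ J, ((E x).filter fun c => c ∉ E (Y601.SSE.flip i x)).card : ℕ) : ℝ) ≤
        (((E x).card * s : ℕ) : ℝ) := by exact_mod_cast h3
    push_cast at h4
    linarith
  have h5 : ∑ i ∈ J.filter (fun i => Right v w π ε (p (Y601.SSE.flip i x)) (E (Y601.SSE.flip i x))),
      (1 - ε) * ((E x).card : ℝ) ≤
      ∑ i ∈ J, (((E x).filter fun c => c ∉ E (Y601.SSE.flip i x)).card : ℝ) := by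
    refine le_trans (sum_le_sum fun i hi => ?_)
      (sum_le_sum_of_subset_of_nonneg (filter_subset _ _) fun _ _ _ => by positivity)
    rw [mem_filter] at hi
    exact lose v w π ε hx hp hi.2 (hJ i hi.1)
  rw [sum_const, nsmul_eq_mul] at h5
  have h6 : (1 - ε) * ((J.filter fun i => Right v w π ε (p (Y601.SSE.flip i x)) (E (Y601.SSE.flip i x))).card : ℝ) *
      (E x).card ≤ s * (E x).card := by
    calc (1 - ε) * ((J.filter fun i => Right v w π ε (p (Y601.SSE.flip i x)) (E (Y601.SSE.flip i x))).card : ℝ) *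
      (E x).card = ((J.filter fun i => Right v w π ε (p (Y601.SSE.flip i x)) (E (Y601.SSE.flip i x))).card : ℝ) *
        ((1 - ε) * (E x).card) := by ring
      _ ≤ _ := h5.trans h1
  exact le_of_mul_le_mul_right h6 hcard

/-- the average over the points -/
theorem few_stars {s : ℕ} (v : K → V) (w : K → W) (π : K → A → B) (ε : ℝ) (hε : ε < 1)
    (E : (I → Bool) → Finset K) (p : (I → Bool) → Prop)
    (hdt : ∀ c, HasDT s fun x => decide (c ∈ E x)) (J : Finset I)
    (hflip : ∀ i ∈ J, ∀ x, p (Y601.SSE.flip i x) ↔ ¬ p x) :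
    (1 - ε) * (J.card * (1 - 2 * unif (fun x => if Right v w π ε (p x) (E x) then (0 : ℝ) else 1)))
      ≤ s := by
  rcases J.eq_empty_or_nonempty with hJ | ⟨i₀, hi₀⟩
  · rw [hJ]
    simp
  obtain ⟨b, hb⟩ : ∃ b : (I → Bool) → ℝ, b = fun x =>
    if Right v w π ε (p x) (E x) then (0 : ℝ) else 1 := ⟨_, rfl⟩
  rw [← hb]
  obtain ⟨O, hO⟩ : ∃ O : Finset (I → Bool), O = univ.filter fun x => p x := ⟨_, rfl⟩
  have hinv : ∀ i ∈ J, ∀ f : (I → Bool) → ℝ,
      ∑ x ∈ O, f (Y601.SSE.flip i x) = ∑ x ∈ univ.filter (fun x => ¬ p x), f x := by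
    intro i hi f
    refine Finset.sum_nbij' (Y601.SSE.flip i) (Y601.SSE.flip i) ?_ ?_ (fun x _ => flip_flip i x)
      (fun x _ => flip_flip i x) (fun x _ => rfl)
    · intro x hx
      rw [hO, mem_filter] at hx
      rw [mem_filter]
      exact ⟨mem_univ _, by rw [hflip i hi]; exact not_not.2 hx.2⟩
    · intro x hx
      rw [mem_filter] at hx
      rw [hO, mem_filter]
      exact ⟨mem_univ _, (hflip i hi x).2 hx.2⟩
  have hOc : (O.card : ℝ) = Fintype.card (I → Bool) / 2 := by
    have h1 := hinv i₀ hi₀ fun _ => (1 : ℝ)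
    rw [sum_const, sum_const, nsmul_eq_mul, nsmul_eq_mul, mul_one, mul_one] at h1
    have h2 := Finset.card_filter_add_card_filter_not (s := (univ : Finset (I → Bool)))
      (fun x => p x)
    have h3 : (O.card : ℝ) + ((univ.filter fun x => ¬ p x).card : ℝ) =
        Fintype.card (I → Bool) := by
      rw [hO, ← card_univ]
      exact_mod_cast h2
    linarith
  -- the points of `O`
  have hpt : ∀ x ∈ O, (1 - ε) * ∑ i ∈ J, (1 - b x - b (Y601.SSE.flip i x)) ≤ s := by
    intro x hx
    rw [hO, mem_filter] at hx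
    have hb0 : ∀ y, 0 ≤ b y := by
      intro y
      rw [hb]
      dsimp only
      split_ifs <;> norm_num
    by_cases hr : Right v w π ε (p x) (E x)
    · have h1 := few_right v w π ε E p hdt J x hr hx.2 fun i hi h => (hflip i hi x).1 h hx.2
      have hbx : b x = 0 := by rw [hb]; simp [hr]
      have h2 : ∑ i ∈ J, (1 - b x - b (Y601.SSE.flip i x)) =
          ((J.filter fun i => Right v w π ε (p (Y601.SSE.flip i x)) (E (Y601.SSE.flip i x))).card : ℝ) := by
        rw [card_filter]
        push_cast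
        refine sum_congr rfl fun i _ => ?_
        rw [hbx, hb]
        dsimp only
        split_ifs <;> norm_num
      rw [h2]
      exact h1
    · have hbx : b x = 1 := by rw [hb]; simp [hr]
      have h2 : ∑ i ∈ J, (1 - b x - b (Y601.SSE.flip i x)) ≤ 0 := by
        refine sum_nonpos fun i _ => ?_
        rw [hbx]
        have := hb0 (Y601.SSE.flip i x)
        linarith
      have h3 : (1 - ε) * ∑ i ∈ J, (1 - b x - b (Y601.SSE.flip i x)) ≤ 0 :=
        mul_nonpos_of_nonneg_of_nonpos (by linarith) h2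
      have h4 : (0 : ℝ) ≤ s := Nat.cast_nonneg _
      linarith
  have hsum := sum_le_sum hpt
  rw [← mul_sum, sum_const, nsmul_eq_mul] at hsum
  have h1 : ∑ x ∈ O, ∑ i ∈ J, (1 - b x - b (Y601.SSE.flip i x)) = J.card * (O.card - ∑ x, b x) := by
    have h2 : ∀ x, ∑ i ∈ J, (1 - b x - b (Y601.SSE.flip i x)) =
        J.card * (1 - b x) - ∑ i ∈ J, b (Y601.SSE.flip i x) := by
      intro x
      rw [sum_sub_distrib, sum_const, nsmul_eq_mul]
    rw [sum_congr rfl fun x _ => h2 x, sum_sub_distrib, sum_comm,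
      sum_congr rfl fun i hi => hinv i hi b, sum_const, nsmul_eq_mul, ← mul_sum,
      sum_sub_distrib, sum_const, nsmul_eq_mul, mul_one, ← mul_sub]
    congr 1
    have h3 := Finset.sum_filter_add_sum_filter_not (univ : Finset (I → Bool)) (fun x => p x) b
    rw [← hO] at h3
    linarith
  rw [h1, hOc] at hsum
  have hc : (0 : ℝ) < Fintype.card (I → Bool) := by exact_mod_cast Fintype.card_pos
  have h4 : unif b = (∑ x, b x) / Fintype.card (I → Bool) := rfl
  have h5 : ∑ x, b x = unif b * Fintype.card (I → Bool) := by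
    rw [h4, div_mul_cancel₀ _ hc.ne']
  rw [h5] at hsum
  have h6 : (1 - ε) * (J.card * (1 - 2 * unif b)) * (Fintype.card (I → Bool) / 2) ≤
      s * (Fintype.card (I → Bool) / 2) := by
    calc _ = (1 - ε) * (J.card * ((Fintype.card (I → Bool) : ℝ) / 2 -
        unif b * Fintype.card (I → Bool))) := by ring
      _ ≤ _ := hsum
      _ = _ := by ring
  exact le_of_mul_le_mul_right h6 (by positivity)

end core

/-- the constraints which are present according to the circuit -/
noncomputable def Present {J K : Type} [Fintype K] (C : Circuit J)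
    (out : K → J ⊕ Fin C.size) (x : J → Bool) : Finset K :=
  univ.filter fun c => C.nodeVal x (out c) = true

/-- reductions of small depth from parity: the parameters -/
theorem par_core {N : ℕ} (C : Circuit (Fin N)) {V W K A B : Type} [Fintype K]
    (v : K → V) (w : K → W) (π : K → A → B)
    (out : K → Fin N ⊕ Fin C.size) (h : ℕ) (hh : ∀ c, C.nodeDepth (out c) ≤ h)
    (ε : ℝ) (hε : ε < 1)
    (hright : unif (fun x : Fin N → Bool =>
      if Right v w π ε (Odd (univ.filter fun i => x i = true).card) (Present C out x) then (0 : ℝ)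
        else 1) ≤ 1 / 3)
    {s : ℕ} (hs : 1 ≤ s) (hcond : 2 * h * C.size * (24 * s) ^ h ≤ 2 ^ s) :
    (1 - ε) * N ≤ (24 * s) ^ (h + 1) := by
  have hs0 : (1 : ℝ) ≤ s := by exact_mod_cast hs
  rcases Nat.eq_zero_or_pos N with hN | hN
  · subst hN
    simp only [Nat.cast_zero, mul_zero]
    positivity
  obtain ⟨ρ, hρ, hst⟩ := exists_restr' C hs h hcond (by simpa using hN) _ (fun x => by
    split_ifs <;> norm_num) hright
  rw [Fintype.card_fin] at hst
  have hfew := few_stars (s := s) v w π ε hε (fun x => Present C out (ov ρ x))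
    (fun x => Odd (univ.filter fun i => ov ρ x i = true).card) (fun c => by
      have h1 := node_dt C hs hρ (out c) (hh c)
      have h2 : (fun x => decide (c ∈ Present C out (ov ρ x))) =
          rs (fun x => C.nodeVal x (out c)) ρ := by
        funext x
        show decide (c ∈ Present C out (ov ρ x)) = C.nodeVal (ov ρ x) (out c)
        by_cases h4 : C.nodeVal (ov ρ x) (out c) = true
        · rw [h4, decide_eq_true]
          unfold Present
          rw [mem_filter]
          exact ⟨mem_univ _, h4⟩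
        · have h5 : c ∉ Present C out (ov ρ x) := by
            unfold Present
            rw [mem_filter]
            exact fun h => h4 h.2
          rw [Bool.not_eq_true] at h4
          rw [h4, decide_eq_false h5]
      rw [h2]
      exact h1) (univ.filter fun i => ρ i = none) (fun i hi x => by
        rw [mem_filter] at hi
        rw [ov_flip ρ i hi.2]
        exact odd_flip i (ov ρ x))
  have hp : (0 : ℝ) ≤ (24 * s) ^ h := by positivity
  calc (1 - ε) * N ≤ (1 - ε) * (16 * (24 * s) ^ h * ((univ.filter fun i => ρ i = none).card *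
        (1 - 2 * unif (fun x => if Right v w π ε (Odd (univ.filter fun i => ov ρ x i = true).card)
          (Present C out (ov ρ x)) then (0 : ℝ) else 1)))) :=
        mul_le_mul_of_nonneg_left hst (by linarith)
    _ = 16 * (24 * s) ^ h * ((1 - ε) * ((univ.filter fun i => ρ i = none).card *
        (1 - 2 * unif (fun x => if Right v w π ε (Odd (univ.filter fun i => ov ρ x i = true).card)
          (Present C out (ov ρ x)) then (0 : ℝ) else 1)))) := by ring
    _ ≤ 16 * (24 * s) ^ h * s := mul_le_mul_of_nonneg_left hfew (by positivity)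
    _ ≤ (24 * s) ^ (h + 1) := by
      rw [pow_succ]
      nlinarith

/-- reductions of small depth from parity must be large -/
theorem par_main (h : ℕ) : ∃ X0 : ℝ, 0 < X0 ∧ ∀ {N : ℕ} (C : Circuit (Fin N)) {V W K A B : Type}
    [Fintype K] (v : K → V) (w : K → W) (π : K → A → B) (out : K → Fin N ⊕ Fin C.size) (ε : ℝ),
    ε < 1 → (∀ c, C.nodeDepth (out c) ≤ h) →
    unif (fun x : Fin N → Bool =>
      if Right v w π ε (Odd (univ.filter fun i => x i = true).card) (Present C out x) then (0 : ℝ)
        else 1) ≤ 1 / 3 →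
    X0 ≤ (1 - ε) * N →
    (2 : ℝ) ^ (((1 - ε) * N) ^ (1 / (h + 1 : ℝ)) / 100) ≤ C.size := by
  obtain ⟨Y0, hY48, hY0⟩ := exists_large (2 * h)
  refine ⟨Y0 ^ (h + 1), by positivity, ?_⟩
  intro N C V W K A B _ v w π out ε hε hh hright hX
  obtain ⟨X, hXd⟩ : ∃ X : ℝ, X = (1 - ε) * N := ⟨_, rfl⟩
  rw [← hXd] at hX ⊢
  obtain ⟨Y, hYd⟩ : ∃ Y : ℝ, Y = X ^ (1 / (h + 1 : ℝ)) := ⟨_, rfl⟩
  rw [← hYd]
  have hY00 : (0 : ℝ) ≤ Y0 := by linarith
  have hXpos : 0 ≤ X := le_trans (by positivity) hX
  have hYX : Y ^ (h + 1) = X := by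
    rw [hYd, ← Real.rpow_natCast, ← Real.rpow_mul hXpos]
    push_cast
    rw [one_div, inv_mul_cancel₀ (by positivity), Real.rpow_one]
  have hYn : 0 ≤ Y := by rw [hYd]; exact Real.rpow_nonneg hXpos _
  have hYY : Y0 ≤ Y := by
    by_contra hcon
    push Not at hcon
    have := pow_lt_pow_left₀ hcon hYn (Nat.succ_ne_zero h)
    rw [Nat.succ_eq_add_one, hYX] at this
    linarith
  have hY := hY0 Y hYY
  by_contra hcon
  push Not at hcon
  -- the depth of the decision trees
  obtain ⟨s, hs⟩ : ∃ s : ℕ, s = ⌈Y / 24⌉₊ - 1 := ⟨_, rfl⟩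
  have hc1 : Y / 24 ≤ ⌈Y / 24⌉₊ := Nat.le_ceil _
  have hc2 : (⌈Y / 24⌉₊ : ℝ) < Y / 24 + 1 := Nat.ceil_lt_add_one (by positivity)
  have hc3 : 2 ≤ ⌈Y / 24⌉₊ := by
    have : (2 : ℝ) ≤ ⌈Y / 24⌉₊ := le_trans (by linarith) hc1
    exact_mod_cast this
  have hs1 : 1 ≤ s := by omega
  have hsr : (s : ℝ) = ⌈Y / 24⌉₊ - 1 := by
    rw [hs, Nat.cast_sub (by omega), Nat.cast_one]
  have hs2 : 24 * (s : ℝ) < Y := by rw [hsr]; linarith
  have hs3 : Y / 24 - 1 ≤ s := by rw [hsr]; linarith
  have hlt : (24 * (s : ℝ)) ^ (h + 1) < X := by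
    rw [← hYX]
    exact pow_lt_pow_left₀ hs2 (by positivity) (Nat.succ_ne_zero h)
  have hcond : 2 * h * C.size * (24 * s) ^ h ≤ 2 ^ s := by
    have h1 : ((2 * h * C.size * (24 * s) ^ h : ℕ) : ℝ) ≤ ((2 ^ s : ℕ) : ℝ) := by
      push_cast
      calc 2 * (h : ℝ) * C.size * (24 * s) ^ h ≤ 2 * h * 2 ^ (Y / 100) * Y ^ (2 * h) := by
            apply mul_le_mul _ _ (by positivity) (by positivity)
            · exact mul_le_mul_of_nonneg_left hcon.le (by positivity)
            · refine (pow_le_pow_left₀ (by positivity) hs2.le h).trans ?_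
              exact pow_le_pow_right₀ (by linarith) (by omega)
        _ = ((2 * h : ℕ) : ℝ) * Y ^ (2 * h) * 2 ^ (Y / 100) := by push_cast; ring
        _ ≤ 2 ^ (Y / 24 - 1) := by
            have := hY
            push_cast at this ⊢
            exact this
        _ ≤ (2 : ℝ) ^ (s : ℝ) := Real.rpow_le_rpow_of_exponent_le (by norm_num) hs3
        _ = 2 ^ s := Real.rpow_natCast _ _
    exact_mod_cast h1
  have hcore := par_core C v w π out h hh ε hε hright hs1 hcond
  rw [← hXd] at hcore
  linarith

end Pool.Agent.D0H57.DT1
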