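import Mathlib

set_option autoImplicit false

/-!
Resolution, and the theorem of Ben-Sasson and Wigderson that short refutations can be made narrow.
-/

namespace Pool.Agent.D0H57.DT1

open Finset

/-- A clause over the variables `X` is a finite set of literals; the literal `(x, true)` is the
variable `x` and `(x, false)` is its negation. `Step C D E`: the clause `E` follows from `C` and `D`
by the resolution rule (with some variable `x`) and weakening. -/
def Step {X : Type} (C D E : Set (X × Bool)) : Prop :=
  ∃ x, C ⊆ insert (x, true) E ∧ D ⊆ insert (x, false) E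

/-- `IsProof F l`: the list `l` of clauses (the last line of the proof first) is a resolution proof
from the set `F` of clauses: each clause belongs to `F` or follows from two earlier ones. -/
def IsProof {X : Type} (F : Set (Finset (X × Bool))) : List (Finset (X × Bool)) → Prop
  | [] => True
  | E :: l => (E ∈ F ∨ ∃ C ∈ l, ∃ D ∈ l, Step (C : Set (X × Bool)) D E) ∧ IsProof F l

/-- a resolution refutation of `F`: a proof which contains the empty clause -/
def Refutes {X : Type} (F : Set (Finset (X × Bool))) (l : List (Finset (X × Bool))) : Prop :=
  IsProof F l ∧ ∅ ∈ l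

/-- `C` has a resolution proof from `F` all of whose clauses have at most `k` literals -/
inductive Narrow {X : Type} (F : Set (Finset (X × Bool))) (k : ℕ) : Finset (X × Bool) → Prop
  | ax (C : Finset (X × Bool)) : C ∈ F → C.card ≤ k → Narrow F k C
  | step (C D E : Finset (X × Bool)) : Narrow F k C → Narrow F k D →
      Step (C : Set (X × Bool)) D E → E.card ≤ k → Narrow F k E

section

variable {X : Type}

theorem Narrow.card_le {F : Set (Finset (X × Bool))} {k : ℕ} {C : Finset (X × Bool)}
    (h : Narrow F k C) : C.card ≤ k := by
  cases h with
  | ax _ _ h => exact h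
  | step _ _ _ _ _ _ h => exact h

theorem Narrow.mono {F : Set (Finset (X × Bool))} {k k' : ℕ} (hk : k ≤ k')
    {C : Finset (X × Bool)} (h : Narrow F k C) : Narrow F k' C := by
  induction h with
  | ax C h1 h2 => exact Narrow.ax C h1 (h2.trans hk)
  | step C D E _ _ h3 h4 ih1 ih2 => exact Narrow.step C D E ih1 ih2 h3 (h4.trans hk)

theorem Narrow.weaken {F : Set (Finset (X × Bool))} {k : ℕ} [Nonempty X]
    {C E : Finset (X × Bool)} (h : Narrow F k C) (hCE : C ⊆ E) (hE : E.card ≤ k) :
    Narrow F k E := by
  obtain ⟨x⟩ := ‹Nonempty X›
  refine Narrow.step C C E h h ⟨x, ?_, ?_⟩ hE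
  · exact fun y hy => Set.mem_insert_of_mem _ (hCE hy)
  · exact fun y hy => Set.mem_insert_of_mem _ (hCE hy)

/-- a proof without wide clauses -/
theorem IsProof.narrow {F : Set (Finset (X × Bool))} {k : ℕ} :
    ∀ {l : List (Finset (X × Bool))}, IsProof F l → (∀ C ∈ l, C.card ≤ k) →
      ∀ C ∈ l, Narrow F k C := by
  intro l
  induction l with
  | nil => intro _ _ C hC; exact absurd hC (List.not_mem_nil)
  | cons E l ih =>
    intro hl hk C hC
    have ih' := ih hl.2 fun C hC => hk C (List.mem_cons_of_mem _ hC)
    rw [List.mem_cons] at hC
    rcases hC with rfl | hC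
    · rcases hl.1 with h | ⟨C1, h1, D1, h2, h3⟩
      · exact Narrow.ax _ h (hk _ (List.mem_cons_self))
      · exact Narrow.step C1 D1 _ (ih' _ h1) (ih' _ h2) h3 (hk _ (List.mem_cons_self))
    · exact ih' C hC

variable [DecidableEq X]

/-- the negation of a literal -/
def neg (a : X × Bool) : X × Bool := (a.1, !a.2)

theorem neg_ne (a : X × Bool) : neg a ≠ a := by
  intro h
  have := congrArg Prod.snd h
  simp [neg] at this

theorem neg_neg' (a : X × Bool) : neg (neg a) = a := by
  simp [neg]

/-- the clauses after the literal `a` has been set to true -/
def Restr (F : Set (Finset (X × Bool))) (a : X × Bool) : Set (Finset (X × Bool)) :=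
  {E | ∃ C ∈ F, a ∉ C ∧ E = C.erase (neg a)}

/-- the proof after the literal `a` has been set to true -/
def restrL (l : List (Finset (X × Bool))) (a : X × Bool) : List (Finset (X × Bool)) :=
  (l.filter fun C => decide (a ∉ C)).map fun C => C.erase (neg a)

theorem mem_restrL {l : List (Finset (X × Bool))} {a : X × Bool} {E : Finset (X × Bool)} :
    E ∈ restrL l a ↔ ∃ C ∈ l, a ∉ C ∧ E = C.erase (neg a) := by
  unfold restrL
  rw [List.mem_map]
  constructor
  · rintro ⟨C, hC, rfl⟩
    rw [List.mem_filter, decide_eq_true_iff] at hC
    exact ⟨C, hC.1, hC.2, rfl⟩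
  · rintro ⟨C, h1, h2, rfl⟩
    exact ⟨C, by rw [List.mem_filter, decide_eq_true_iff]; exact ⟨h1, h2⟩, rfl⟩

theorem isProof_restr {F : Set (Finset (X × Bool))} {l : List (Finset (X × Bool))}
    (h : IsProof F l) (a : X × Bool) : IsProof (Restr F a) (restrL l a) := by
  induction l with
  | nil => exact trivial
  | cons E l ih =>
    have ih' := ih h.2
    by_cases hE : a ∈ E
    · have : restrL (E :: l) a = restrL l a := by
        unfold restrL
        rw [List.filter_cons]
        simp [hE]
      rw [this]
      exact ih'
    · have h1 : restrL (E :: l) a = E.erase (neg a) :: restrL l a := by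
        unfold restrL
        rw [List.filter_cons]
        simp [hE]
      rw [h1]
      refine ⟨?_, ih'⟩
      rcases h.1 with h2 | ⟨C, hC, D, hD, x, hx1, hx2⟩
      · exact Or.inl ⟨E, h2, hE, rfl⟩
      · right
        obtain ⟨y, b⟩ := a
        by_cases hyx : y = x
        · subst hyx
          cases b
          · -- the literal `¬ x` is true: use `C`
            have hC' : (y, false) ∉ C := by
              intro h3
              have h4 := hx1 h3
              rw [Set.mem_insert_iff] at h4
              rcases h4 with h4 | h4
              · simp at h4
              · exact hE h4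
            refine ⟨C.erase (neg (y, false)), mem_restrL.2 ⟨C, hC, hC', rfl⟩,
              C.erase (neg (y, false)), mem_restrL.2 ⟨C, hC, hC', rfl⟩, y, ?_, ?_⟩
            · intro z hz
              rw [mem_coe, mem_erase] at hz
              have h4 := hx1 hz.2
              rw [Set.mem_insert_iff] at h4 ⊢
              rcases h4 with h4 | h4
              · exact absurd h4 hz.1
              · right
                rw [mem_coe, mem_erase]
                exact ⟨hz.1, h4⟩
            · intro z hz
              rw [mem_coe, mem_erase] at hz
              have h4 := hx1 hz.2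
              rw [Set.mem_insert_iff] at h4 ⊢
              rcases h4 with h4 | h4
              · exact absurd h4 hz.1
              · right
                rw [mem_coe, mem_erase]
                exact ⟨hz.1, h4⟩
          · have hD' : (y, true) ∉ D := by
              intro h3
              have h4 := hx2 h3
              rw [Set.mem_insert_iff] at h4
              rcases h4 with h4 | h4
              · simp at h4
              · exact hE h4
            refine ⟨D.erase (neg (y, true)), mem_restrL.2 ⟨D, hD, hD', rfl⟩,
              D.erase (neg (y, true)), mem_restrL.2 ⟨D, hD, hD', rfl⟩, y, ?_, ?_⟩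
            · intro z hz
              rw [mem_coe, mem_erase] at hz
              have h4 := hx2 hz.2
              rw [Set.mem_insert_iff] at h4 ⊢
              rcases h4 with h4 | h4
              · exact absurd h4 hz.1
              · right
                rw [mem_coe, mem_erase]
                exact ⟨hz.1, h4⟩
            · intro z hz
              rw [mem_coe, mem_erase] at hz
              have h4 := hx2 hz.2
              rw [Set.mem_insert_iff] at h4 ⊢
              rcases h4 with h4 | h4
              · exact absurd h4 hz.1
              · right
                rw [mem_coe, mem_erase]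
                exact ⟨hz.1, h4⟩
        · have hC' : (y, b) ∉ C := by
            intro h3
            have h4 := hx1 h3
            rw [Set.mem_insert_iff] at h4
            rcases h4 with h4 | h4
            · exact hyx (congrArg Prod.fst h4)
            · exact hE h4
          have hD' : (y, b) ∉ D := by
            intro h3
            have h4 := hx2 h3
            rw [Set.mem_insert_iff] at h4
            rcases h4 with h4 | h4
            · exact hyx (congrArg Prod.fst h4)
            · exact hE h4
          refine ⟨C.erase (neg (y, b)), mem_restrL.2 ⟨C, hC, hC', rfl⟩,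
            D.erase (neg (y, b)), mem_restrL.2 ⟨D, hD, hD', rfl⟩, x, ?_, ?_⟩
          · intro z hz
            rw [mem_coe, mem_erase] at hz
            have h4 := hx1 hz.2
            rw [Set.mem_insert_iff] at h4 ⊢
            rcases h4 with h4 | h4
            · exact Or.inl h4
            · right
              rw [mem_coe, mem_erase]
              exact ⟨hz.1, h4⟩
          · intro z hz
            rw [mem_coe, mem_erase] at hz
            have h4 := hx2 hz.2
            rw [Set.mem_insert_iff] at h4 ⊢
            rcases h4 with h4 | h4
            · exact Or.inl h4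
            · right
              rw [mem_coe, mem_erase]
              exact ⟨hz.1, h4⟩

theorem empty_mem_restrL {l : List (Finset (X × Bool))} (h : ∅ ∈ l) (a : X × Bool) :
    ∅ ∈ restrL l a :=
  mem_restrL.2 ⟨∅, h, notMem_empty _, by simp⟩

/-- a narrow proof under `a = 1` gives a narrow proof of the clauses with `¬ a` added -/
theorem narrow_lift {F : Set (Finset (X × Bool))} {k : ℕ} {a : X × Bool} {C : Finset (X × Bool)}
    (h : Narrow (Restr F a) k C) : Narrow F (k + 1) (insert (neg a) C) := by
  haveI : Nonempty X := ⟨a.1⟩
  induction h with
  | ax C h1 h2 =>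
    obtain ⟨C0, hC0, ha, rfl⟩ := h1
    have h3 : C0 ⊆ insert (neg a) (C0.erase (neg a)) := by
      intro z hz
      rw [mem_insert, mem_erase]
      by_cases h : z = neg a
      · exact Or.inl h
      · exact Or.inr ⟨h, hz⟩
    have h4 : (insert (neg a) (C0.erase (neg a))).card ≤ k + 1 :=
      (card_insert_le _ _).trans (by omega)
    exact Narrow.weaken (Narrow.ax C0 hC0 ((card_le_card h3).trans h4)) h3 h4
  | step C D E h1 h2 h3 h4 ih1 ih2 =>
    obtain ⟨x, hx1, hx2⟩ := h3
    refine Narrow.step _ _ _ ih1 ih2 ⟨x, ?_, ?_⟩ ((card_insert_le _ _).trans (by omega))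
    · intro z hz
      rw [mem_coe, mem_insert] at hz
      rw [Set.mem_insert_iff, mem_coe, mem_insert]
      rcases hz with hz | hz
      · exact Or.inr (Or.inl hz)
      · have := hx1 hz
        rw [Set.mem_insert_iff] at this
        rcases this with h | h
        · exact Or.inl h
        · exact Or.inr (Or.inr h)
    · intro z hz
      rw [mem_coe, mem_insert] at hz
      rw [Set.mem_insert_iff, mem_coe, mem_insert]
      rcases hz with hz | hz
      · exact Or.inr (Or.inl hz)
      · have := hx2 hz
        rw [Set.mem_insert_iff] at this
        rcases this with h | h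
        · exact Or.inl h
        · exact Or.inr (Or.inr h)

/-- narrow refutations under `a = 1` and under `a = 0` -/
theorem narrow_combine {F : Set (Finset (X × Bool))} {k w : ℕ} {a : X × Bool}
    (hF : ∀ C ∈ F, C.card ≤ w) (hwk : w ≤ k + 1)
    (h1 : Narrow (Restr F a) k ∅) (h2 : Narrow (Restr F (neg a)) (k + 1) ∅) :
    Narrow F (k + 1) ∅ := by
  have h3 := narrow_lift h1
  have h4 : ∀ C, Narrow (Restr F (neg a)) (k + 1) C → Narrow F (k + 1) C := by
    intro C hC
    induction hC with
    | ax C h5 h6 =>
      obtain ⟨C0, hC0, ha, rfl⟩ := h5
      rw [neg_neg'] at h6 ⊢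
      have h7 : Narrow F (k + 1) C0 := Narrow.ax C0 hC0 ((hF C0 hC0).trans hwk)
      obtain ⟨x, b⟩ := a
      cases b
      · refine Narrow.step _ _ _ h3 h7 ⟨x, ?_, ?_⟩ h6
        · intro z hz
          rw [mem_coe, mem_insert] at hz
          rcases hz with hz | hz
          · rw [hz]; exact Set.mem_insert _ _
          · exact absurd hz (notMem_empty _)
        · intro z hz
          rw [Set.mem_insert_iff, mem_coe, mem_erase]
          by_cases h : z = (x, false)
          · exact Or.inl h
          · exact Or.inr ⟨h, hz⟩
      · refine Narrow.step _ _ _ h7 h3 ⟨x, ?_, ?_⟩ h6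
        · intro z hz
          rw [Set.mem_insert_iff, mem_coe, mem_erase]
          by_cases h : z = (x, true)
          · exact Or.inl h
          · exact Or.inr ⟨h, hz⟩
        · intro z hz
          rw [mem_coe, mem_insert] at hz
          rcases hz with hz | hz
          · rw [hz]; exact Set.mem_insert _ _
          · exact absurd hz (notMem_empty _)
    | step C D E _ _ h5 h6 ih1 ih2 => exact Narrow.step C D E ih1 ih2 h5 h6
  exact h4 ∅ h2

/-- the number of clauses with more than `t` literals -/
def fat (t : ℕ) (l : List (Finset (X × Bool))) : ℕ := (l.filter fun C => decide (t < C.card)).length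

theorem fat_restr_le (t : ℕ) (l : List (Finset (X × Bool))) (a : X × Bool) :
    fat t (restrL l a) + (l.filter fun C => decide (t < C.card ∧ a ∈ C)).length ≤ fat t l := by
  unfold fat restrL
  induction l with
  | nil => simp
  | cons E l ih =>
    by_cases h1 : a ∈ E
    · by_cases h2 : t < E.card
      · simp only [List.filter_cons, h1, h2, not_true_eq_false, decide_false, decide_true,
          and_self, if_true, List.length_cons]
        simp only [Bool.false_eq_true, if_false]
        omega
      · simp only [List.filter_cons, h1, h2, not_true_eq_false, decide_false,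
          Bool.false_eq_true, if_false, false_and]
        omega
    · by_cases h2 : t < E.card
      · simp only [List.filter_cons, h1, h2, not_false_eq_true, decide_true, if_true,
          List.map_cons, and_false, decide_false, Bool.false_eq_true, if_false, List.length_cons]
        split_ifs
        · simp only [List.length_cons]
          omega
        · omega
      · have h3 : ¬ t < (E.erase (neg a)).card := by
          have := card_erase_le (s := E) (a := neg a)
          omega
        simp only [List.filter_cons, h1, h2, h3, not_false_eq_true, decide_true, if_true,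
          List.map_cons, false_and, decide_false, Bool.false_eq_true, if_false]
        exact ih

theorem sum_fat (t : ℕ) (Y : Finset (X × Bool)) (l : List (Finset (X × Bool)))
    (hl : ∀ C ∈ l, C ⊆ Y) :
    t * fat t l ≤ ∑ a ∈ Y, (l.filter fun C => decide (t < C.card ∧ a ∈ C)).length := by
  induction l with
  | nil => simp [fat]
  | cons E l ih =>
    have ih' := ih fun C hC => hl C (List.mem_cons_of_mem _ hC)
    by_cases h2 : t < E.card
    · have h3 : ∀ a ∈ Y, ((E :: l).filter fun C => decide (t < C.card ∧ a ∈ C)).length =
          (l.filter fun C => decide (t < C.card ∧ a ∈ C)).length + if a ∈ E then 1 else 0 := by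
        intro a _
        rw [List.filter_cons]
        by_cases h1 : a ∈ E
        · simp [h1, h2]
        · simp [h1]
      rw [sum_congr rfl h3, sum_add_distrib, ← card_filter, filter_mem_eq_inter]
      have h4 : Y ∩ E = E := inter_eq_right.2 (hl E (List.mem_cons_self))
      rw [h4]
      have h5 : fat t (E :: l) = fat t l + 1 := by
        unfold fat
        rw [List.filter_cons]
        simp [h2]
      rw [h5]
      nlinarith
    · have h3 : ∀ a ∈ Y, ((E :: l).filter fun C => decide (t < C.card ∧ a ∈ C)).length =
          (l.filter fun C => decide (t < C.card ∧ a ∈ C)).length := by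
        intro a _
        rw [List.filter_cons]
        simp [h2]
      rw [sum_congr rfl h3]
      have h5 : fat t (E :: l) = fat t l := by
        unfold fat
        rw [List.filter_cons]
        simp [h2]
      rw [h5]
      exact ih'

theorem narrow_of_fat_zero {F : Set (Finset (X × Bool))} {l : List (Finset (X × Bool))} {t : ℕ}
    (hl : Refutes F l) (h0 : fat t l = 0) : Narrow F t ∅ := by
  refine hl.1.narrow ?_ ∅ hl.2
  intro C hC
  by_contra hcon
  push Not at hcon
  unfold fat at h0
  rw [List.length_eq_zero_iff, List.filter_eq_nil_iff] at h0
  exact h0 C hC (by simpa using hcon)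

/-- the theorem of Ben-Sasson and Wigderson: the induction -/
theorem size_width_aux (n t : ℕ) (htn : t ≤ 2 * n) : ∀ (b m : ℕ) (Y : Finset X)
    (F : Set (Finset (X × Bool))) (l : List (Finset (X × Bool))), Y.card ≤ m → Y.card ≤ n →
    (∀ C ∈ F, C.card ≤ t) → Refutes F l → (∀ C ∈ l, ∀ a ∈ C, a.1 ∈ Y) →
    fat t l * (2 * n - t) ^ b < (2 * n) ^ b → Narrow F (t + b) ∅ := by
  intro b
  induction b with
  | zero =>
    intro m Y F l _ _ hF hl hY hfat
    rw [pow_zero, pow_zero, mul_one] at hfat
    have h0 : fat t l = 0 := by omega
    exact narrow_of_fat_zero hl h0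
  | succ b ihb =>
    intro m
    induction m with
    | zero =>
      intro Y F l hYm _ hF hl hY hfat
      have h0 : fat t l = 0 := by
        unfold fat
        rw [List.length_eq_zero_iff, List.filter_eq_nil_iff]
        intro C hC
        have h1 : C = ∅ := by
          rw [eq_empty_iff_forall_notMem]
          intro a ha
          have h2 := hY C hC a ha
          rw [Finset.card_eq_zero.1 (Nat.le_zero.1 hYm)] at h2
          exact notMem_empty _ h2
        rw [h1]
        simp
      exact (narrow_of_fat_zero hl h0).mono (by omega)
    | succ m ihm =>
      intro Y F l hYm hYn hF hl hY hfat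
      rcases Nat.eq_zero_or_pos (fat t l) with h0 | h0
      · exact (narrow_of_fat_zero hl h0).mono (by omega)
      -- a frequent literal
      have hsum := sum_fat t (Y ×ˢ (univ : Finset Bool)) l (by
        intro C hC a ha
        rw [mem_product]
        exact ⟨hY C hC a ha, mem_univ _⟩)
      obtain ⟨a, haY, ha⟩ : ∃ a ∈ Y ×ˢ (univ : Finset Bool), t * fat t l ≤
          2 * n * (l.filter fun C => decide (t < C.card ∧ a ∈ C)).length := by
        by_contra hcon
        push Not at hcon
        have hne : (Y ×ˢ (univ : Finset Bool)).Nonempty := by
          by_contra hemp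
          rw [not_nonempty_iff_eq_empty] at hemp
          have hY0 : ∀ a : X × Bool, a.1 ∉ Y := by
            intro a haa
            have : a ∈ Y ×ˢ (univ : Finset Bool) := mem_product.2 ⟨haa, mem_univ _⟩
            rw [hemp] at this
            exact notMem_empty _ this
          have : fat t l = 0 := by
            unfold fat
            rw [List.length_eq_zero_iff, List.filter_eq_nil_iff]
            intro C hC
            have h1 : C = ∅ := by
              rw [eq_empty_iff_forall_notMem]
              intro a ha
              exact hY0 a (hY C hC a ha)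
            rw [h1]
            simp
          omega
        have h1 := sum_lt_sum_of_nonempty hne hcon
        rw [← mul_sum, sum_const, card_product, card_univ, Fintype.card_bool, smul_eq_mul] at h1
        have h2 : 2 * n * (t * fat t l) ≤ 2 * n * ∑ a ∈ Y ×ˢ (univ : Finset Bool),
            (l.filter fun C => decide (t < C.card ∧ a ∈ C)).length := Nat.mul_le_mul_left _ hsum
        have h3 : Y.card * 2 * (t * fat t l) ≤ 2 * n * (t * fat t l) :=
          Nat.mul_le_mul_right _ (by omega)
        omega
      have haY1 : a.1 ∈ Y := (mem_product.1 haY).1
      have hcardY : (Y.erase a.1).card = Y.card - 1 := card_erase_of_mem haY1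
      have hYpos : 0 < Y.card := card_pos.2 ⟨_, haY1⟩
      have hFr : ∀ c : X × Bool, ∀ C ∈ Restr F c, C.card ≤ t := by
        rintro c C ⟨C0, hC0, _, rfl⟩
        exact (card_erase_le).trans (hF C0 hC0)
      have hYr : ∀ c : X × Bool, c.1 = a.1 → ∀ C ∈ restrL l c, ∀ z ∈ C, z.1 ∈ Y.erase a.1 := by
        intro c hca C hC z hz
        obtain ⟨C0, hC0, hc, rfl⟩ := mem_restrL.1 hC
        rw [mem_erase] at hz
        rw [mem_erase]
        refine ⟨?_, hY C0 hC0 z hz.2⟩
        intro hza
        have h1 : z = c ∨ z = neg c := by
          obtain ⟨z1, z2⟩ := z
          obtain ⟨c1, c2⟩ := c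
          simp only at hza hca
          subst hza
          rw [hca]
          unfold neg
          cases z2 <;> cases c2 <;> simp
        rcases h1 with h1 | h1
        · rw [h1] at hz; exact hc hz.2
        · exact hz.1 h1
      have hfr := fat_restr_le t l a
      have hfr' := fat_restr_le t l (neg a)
      have hN1 : Narrow (Restr F a) (t + b) ∅ := by
        refine ihb (Y.erase a.1).card (Y.erase a.1) (Restr F a) (restrL l a) le_rfl
          (by omega) (hFr a) ⟨isProof_restr hl.1 a, empty_mem_restrL hl.2 a⟩ (hYr a rfl) ?_
        obtain ⟨u, hu⟩ : ∃ u, u = 2 * n - t := ⟨_, rfl⟩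
        have hut : u + t = 2 * n := by omega
        rw [← hu] at hfat ⊢
        have hn0 : 0 < 2 * n := by
          rcases Nat.eq_zero_or_pos n with h | h
          · subst h
            omega
          · omega
        have h1 : 2 * n * fat t (restrL l a) ≤ u * fat t l := by
          have h2 : 2 * n * fat t (restrL l a) +
              2 * n * (l.filter fun C => decide (t < C.card ∧ a ∈ C)).length ≤
              2 * n * fat t l := by
            rw [← mul_add]
            exact Nat.mul_le_mul_left _ hfr
          have h3 : 2 * n * fat t l = u * fat t l + t * fat t l := by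
            rw [← hut]; ring
          omega
        have h4 : 2 * n * (fat t (restrL l a) * u ^ b) < 2 * n * (2 * n) ^ b := by
          calc 2 * n * (fat t (restrL l a) * u ^ b) = 2 * n * fat t (restrL l a) * u ^ b := by ring
            _ ≤ u * fat t l * u ^ b := Nat.mul_le_mul_right _ h1
            _ = fat t l * u ^ (b + 1) := by ring
            _ < (2 * n) ^ (b + 1) := hfat
            _ = 2 * n * (2 * n) ^ b := by ring
        exact Nat.lt_of_mul_lt_mul_left h4
      have hN2 : Narrow (Restr F (neg a)) (t + (b + 1)) ∅ := by
        refine ihm (Y.erase a.1) (Restr F (neg a)) (restrL l (neg a)) (by omega)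
          (by omega) (hFr _) ⟨isProof_restr hl.1 _, empty_mem_restrL hl.2 _⟩ (hYr _ rfl) ?_
        exact lt_of_le_of_lt (Nat.mul_le_mul_right _ (by omega)) hfat
      exact narrow_combine (w := t) (k := t + b) hF (by omega) hN1 hN2

/-- the theorem of Ben-Sasson and Wigderson: a short refutation can be made narrow -/
theorem size_width [Fintype X] (t b : ℕ) (ht : t ≤ 2 * Fintype.card X)
    (F : Set (Finset (X × Bool))) (hF : ∀ C ∈ F, C.card ≤ t) (l : List (Finset (X × Bool)))
    (hl : Refutes F l)
    (hsize : l.length * (2 * Fintype.card X - t) ^ b < (2 * Fintype.card X) ^ b) :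
    Narrow F (t + b) ∅ := by
  refine size_width_aux (Fintype.card X) t ht b (Fintype.card X) univ F l ?_ ?_ hF hl
    (fun _ _ _ _ => mem_univ _) (lt_of_le_of_lt (Nat.mul_le_mul_right _ ?_) hsize)
  · rw [card_univ]
  · rw [card_univ]
  · unfold fat
    exact List.length_filter_le _ _

end

end Pool.Agent.D0H57.DT1
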